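import Pool.Agent.Zk11.QQ.Lp

/-! Small parameters, and the union bound. -/

set_option autoImplicit false
set_option linter.unusedSectionVars false

open scoped BigOperators Topology ENNReal
open MeasureTheory Filter

namespace Pool.Agent.Zk11.QQ

open Pool.Agent.Zk11.QD

variable {d : ℕ}

theorem small_exp (C N c g ε : ℝ) (hc : 0 < c) (hg : 0 < g) (hε : 0 < ε) :
    ∀ᶠ lam : ℝ in 𝓝[>] 0, C * lam ^ (-N) * Real.exp (-(c * lam ^ (-g))) ≤ ε := by
  have h1 : Tendsto (fun lam : ℝ => lam ^ (-g)) (𝓝[>] 0) atTop :=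
    tendsto_rpow_neg_nhdsGT_zero (by linarith)
  have h2 := ((tendsto_rpow_mul_exp_neg_mul_atTop_nhds_zero (N / g) c hc).comp h1).const_mul C
  rw [mul_zero] at h2
  filter_upwards [h2.eventually_le_const hε, self_mem_nhdsWithin] with lam h3 h4
  have h5 : (0 : ℝ) < lam := h4
  refine le_trans (le_of_eq ?_) h3
  rw [Function.comp_apply, ← Real.rpow_mul h5.le, mul_assoc]
  have e1 : -g * (N / g) = -N := by field_simp
  rw [e1, neg_mul]

theorem cmp_exp (c g g' : ℝ) (hc : 0 < c) (hg' : g < g') :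
    ∀ᶠ lam : ℝ in 𝓝[>] 0, 2 * lam ^ (-g) ≤ c * lam ^ (-g') := by
  have h1 : Tendsto (fun lam : ℝ => lam ^ (-(g' - g))) (𝓝[>] 0) atTop :=
    tendsto_rpow_neg_nhdsGT_zero (by linarith)
  filter_upwards [h1.eventually_ge_atTop (2 / c), self_mem_nhdsWithin] with lam h3 h4
  have h5 : (0 : ℝ) < lam := h4
  rw [div_le_iff₀ hc] at h3
  have h6 : lam ^ (-g') = lam ^ (-(g' - g)) * lam ^ (-g) := by
    rw [← Real.rpow_add h5]
    congr 1
    ring
  rw [h6]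
  have h7 : 0 < lam ^ (-g) := Real.rpow_pos_of_pos h5 _
  calc 2 * lam ^ (-g) ≤ lam ^ (-(g' - g)) * c * lam ^ (-g) :=
        mul_le_mul_of_nonneg_right h3 h7.le
    _ = _ := by ring

/-- the total probability -/
theorem tot_exp (C N c g g' : ℝ) (hc : 0 < c) (hg : 0 < g) (hg' : g < g') :
    ∀ᶠ lam : ℝ in 𝓝[>] 0, Real.exp (lam ^ (-g)) * (C * lam ^ (-N)) *
      (30 * Real.exp (-(c * lam ^ (-g')))) ≤ Real.exp (-lam ^ (-g)) := by
  filter_upwards [small_exp (30 * C) N (c / 2) g' 1 (by positivity) (by linarith) one_pos,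
    cmp_exp (c / 2) g g' (by positivity) hg', self_mem_nhdsWithin] with lam h1 h2 h3
  have h5 : (0 : ℝ) < lam := h3
  have h6 : 0 ≤ lam ^ (-N) := (Real.rpow_pos_of_pos h5 _).le
  have e1 : Real.exp (-(c * lam ^ (-g'))) = Real.exp (-(c / 2 * lam ^ (-g'))) *
      Real.exp (-(c / 2 * lam ^ (-g'))) := by
    rw [← Real.exp_add]
    congr 1
    ring
  calc Real.exp (lam ^ (-g)) * (C * lam ^ (-N)) * (30 * Real.exp (-(c * lam ^ (-g')))) =
        (30 * C * lam ^ (-N) * Real.exp (-(c / 2 * lam ^ (-g')))) *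
        (Real.exp (lam ^ (-g)) * Real.exp (-(c / 2 * lam ^ (-g')))) := by
        rw [e1]
        ring
    _ ≤ 1 * (Real.exp (lam ^ (-g)) * Real.exp (-(c / 2 * lam ^ (-g')))) :=
        mul_le_mul_of_nonneg_right h1 (by positivity)
    _ = Real.exp (lam ^ (-g) - c / 2 * lam ^ (-g')) := by
        rw [one_mul, ← Real.exp_add]
        congr 1
    _ ≤ _ := by
        apply Real.exp_le_exp.2
        linarith

/-- union bound -/
theorem union_bd {Ω I : Type} [MeasurableSpace Ω] (P : Measure Ω) [IsProbabilityMeasure P]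
    (J : Finset I) (Bad : I → Set Ω) (p q : ℝ) (hp : 0 ≤ p)
    (h : ∀ i ∈ J, P (Bad i) ≤ ENNReal.ofReal p) (hq : (J.card : ℝ) * p ≤ q) :
    ∃ Good : Set Ω, MeasurableSet Good ∧ 1 - q ≤ P.real Good ∧
      ∀ ω ∈ Good, ∀ i ∈ J, ω ∉ Bad i := by
  set U := ⋃ i ∈ J, Bad i with hU
  have h1 : P U ≤ ENNReal.ofReal (J.card * p) := by
    refine (measure_biUnion_finset_le J Bad).trans ?_
    refine (Finset.sum_le_sum h).trans ?_
    rw [Finset.sum_const, nsmul_eq_mul, ENNReal.ofReal_mul (by positivity), ENNReal.ofReal_natCast]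
  refine ⟨(toMeasurable P U)ᶜ, (measurableSet_toMeasurable P U).compl, ?_, ?_⟩
  · rw [measureReal_def, prob_compl_eq_one_sub (measurableSet_toMeasurable P U),
      measure_toMeasurable]
    have h2 : P U ≤ 1 := prob_le_one
    rw [ENNReal.toReal_sub_of_le h2 ENNReal.one_ne_top, ENNReal.toReal_one]
    have h3 : (P U).toReal ≤ J.card * p := ENNReal.toReal_le_of_le_ofReal (by positivity) h1
    linarith
  · intro ω hω i hi hb
    apply hω
    apply subset_toMeasurable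
    rw [hU, Set.mem_iUnion₂]
    exact ⟨i, hi, hb⟩

section
variable (μ : Measure ℝ) [IsProbabilityMeasure μ] (lam : ℝ) (z z' : ℂ)
  (hz : 0 < z.im) (hz' : 0 < z'.im) (b : ℝ) (hb : ∀ᵐ s ∂μ, |s| ≤ b) (θ θ' : Fin d → ℝ) (Λ : ℝ)
  (hΛ : ∀ ω, ‖Ph lam z θ ω - Ph lam z' θ' ω‖ ≤ Λ)

include hΛ

theorem FZ_lip (B : Finset (Zd d)) (hB : B.Nonempty) (ω : Zd d → ℝ) :
    ‖FZ lam z θ B ω - FZ lam z' θ' B ω‖ ≤ Λ := by
  have hN : (0 : ℝ) < B.card := by exact_mod_cast hB.card_pos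
  unfold FZ
  rw [← mul_sub, ← Finset.sum_sub_distrib, norm_mul, norm_inv, Complex.norm_natCast]
  calc (B.card : ℝ)⁻¹ * ‖∑ y ∈ B, (Ph lam z θ (sh y ω) - Ph lam z' θ' (sh y ω))‖ ≤
        (B.card : ℝ)⁻¹ * ∑ _y ∈ B, Λ :=
        mul_le_mul_of_nonneg_left ((norm_sum_le _ _).trans (Finset.sum_le_sum fun y _ => hΛ _))
          (by positivity)
    _ = Λ := by
        rw [Finset.sum_const, nsmul_eq_mul]
        field_simp

include hz hz' hb

theorem mean_lip : ‖∫ ω, Ph lam z θ ω ∂(PZ d μ) - ∫ ω, Ph lam z' θ' ω ∂(PZ d μ)‖ ≤ Λ := by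
  rw [← integral_sub (Ph_int μ lam z hz b hb θ) (Ph_int μ lam z' hz' b hb θ')]
  have h := norm_integral_le_of_norm_le_const (μ := PZ d μ)
    (f := fun ω => Ph lam z θ ω - Ph lam z' θ' ω) (C := Λ) (Eventually.of_forall hΛ)
  simpa using h

end

theorem mean_eq (μ : Measure ℝ) [IsProbabilityMeasure μ] (lam : ℝ) (z : ℂ) (hz : 0 < z.im)
    (θ : Fin d → ℝ) : ∫ ω, Ph lam z θ ω ∂(PZ d μ) = (z.im : ℂ) * ∑' y : Zd d,
      Complex.exp (((∑ j, θ j * y j : ℝ) : ℂ) * Complex.I) *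
      ((∫ ω, ‖Gc lam z ω y‖ ^ 2 ∂(PZ d μ) : ℝ) : ℂ) := by
  unfold Ph
  rw [integral_const_mul]
  congr 1
  exact G_tsum μ lam z hz (fun ω => Gc lam z ω)
    (Eventually.of_forall fun ω => Gc_isG lam z hz ω) θ

/-- the profile changes little with the parameters -/
theorem Ph_lip (lam : ℝ) (z z' : ℂ) (η : ℝ) (hη : 0 < η) (hz : η ≤ z.im) (hz' : η ≤ z'.im)
    (hz1 : z'.im ≤ 1) (hη1 : η ≤ 1) (θ θ' : Fin d → ℝ) (ρ : ℝ) (hρ0 : 0 ≤ ρ)
    (h1 : |z.re - z'.re| ≤ ρ) (h2 : |z.im - z'.im| ≤ ρ) (h3 : ∀ j, |θ j - θ' j| ≤ ρ)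
    (ω : Zd d → ℝ) :
    ‖Ph lam z θ ω - Ph lam z' θ' ω‖ ≤ (8 + 4 * d) * ρ / η ^ 3 := by
  have e1 : ‖z - z'‖ ≤ 2 * ρ := by
    have := Complex.norm_le_abs_re_add_abs_im (z - z')
    rw [Complex.sub_re, Complex.sub_im] at this
    linarith
  have e2 := Ph_z lam z z' η hη hz hz' hz1 hη1 θ ω
  have e3 := Ph_theta lam z' (by linarith) θ θ' ω ρ h3
  have e4 : 4 * d * ρ / z'.im ^ 3 ≤ 4 * d * ρ / η ^ 3 :=
    div_le_div_of_nonneg_left (by positivity) (by positivity) (pow_le_pow_left₀ hη.le hz' 3)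
  have e5 : 4 * ‖z - z'‖ / η ^ 3 ≤ 8 * ρ / η ^ 3 := by
    apply div_le_div_of_nonneg_right _ (by positivity)
    linarith
  have e6 := norm_sub_le_norm_sub_add_norm_sub (Ph lam z θ ω) (Ph lam z' θ ω) (Ph lam z' θ' ω)
  have e7 : (8 + 4 * d) * ρ / η ^ 3 = 8 * ρ / η ^ 3 + 4 * d * ρ / η ^ 3 := by ring
  rw [e7]
  linarith

end Pool.Agent.Zk11.QQ
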