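import Pool.Agent.W193.BK.ES

/-! Exponential concentration from the Efron-Stein inequality. -/

set_option autoImplicit false
set_option linter.unusedSectionVars false

open scoped BigOperators Topology
open MeasureTheory Filter

namespace Pool.Agent.Zk11.QQ

variable {m : Type} [Fintype m] [DecidableEq m] (μ : Measure ℝ) [IsProbabilityMeasure μ]

/-- the product law -/
noncomputable abbrev PM (m : Type) [Fintype m] (μ : Measure ℝ) : Measure (m → ℝ) :=
  Measure.pi fun _ : m => μ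

theorem es_real (F : (m → ℝ) → ℝ) (hF : Continuous F) (C : ℝ) (hC : ∀ V, |F V| ≤ C) :
    ∫ V, (F V) ^ 2 ∂(PM m μ) - (∫ V, F V ∂(PM m μ)) ^ 2 ≤
      ∑ v, ∫ V, (F V - F (Function.update V v 0)) ^ 2 ∂(PM m μ) := by
  have h := Pool.Agent.W193.BK.ES.es m μ (fun V => (F V : ℂ))
    (Complex.continuous_ofReal.comp hF) ⟨C, fun V => by
      rw [Complex.norm_real, Real.norm_eq_abs]
      exact hC V⟩
  unfold Pool.Agent.W788.BK.PP at h
  have e1 : ∀ V, ‖((F V : ℝ) : ℂ) - ∫ U, ((F U : ℝ) : ℂ) ∂(PM m μ)‖ ^ 2 =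
      (F V - ∫ U, F U ∂(PM m μ)) ^ 2 := by
    intro V
    rw [integral_complex_ofReal, ← Complex.ofReal_sub, Complex.norm_real, Real.norm_eq_abs, sq_abs]
  have e2 : ∀ V v, ‖((F V : ℝ) : ℂ) - ((F (Function.update V v 0) : ℝ) : ℂ)‖ ^ 2 =
      (F V - F (Function.update V v 0)) ^ 2 := by
    intro V v
    rw [← Complex.ofReal_sub, Complex.norm_real, Real.norm_eq_abs, sq_abs]
  simp only [e1, e2] at h
  have hi1 : Integrable F (PM m μ) :=
    Integrable.of_bound hF.aestronglyMeasurable C (Eventually.of_forall fun V => by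
      rw [Real.norm_eq_abs]
      exact hC V)
  have hi2 : Integrable (fun V => (F V) ^ 2) (PM m μ) :=
    Integrable.of_bound (hF.pow 2).aestronglyMeasurable (C ^ 2) (Eventually.of_forall fun V => by
      rw [Real.norm_eq_abs, abs_pow]
      exact pow_le_pow_left₀ (abs_nonneg _) (hC V) 2)
  set c := ∫ U, F U ∂(PM m μ) with hc
  have e3 : ∫ V, (F V - c) ^ 2 ∂(PM m μ) = ∫ V, (F V) ^ 2 ∂(PM m μ) - c ^ 2 := by
    have e4 : ∀ V, (F V - c) ^ 2 = (F V) ^ 2 - (2 * c) * F V + c ^ 2 := fun V => by ring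
    simp only [e4]
    have i1 : Integrable (fun V => (F V) ^ 2 - (2 * c) * F V) (PM m μ) :=
      hi2.sub (hi1.const_mul _)
    have e5 : ∫ V, ((F V) ^ 2 - (2 * c) * F V) ∂(PM m μ) =
        ∫ V, (F V) ^ 2 ∂(PM m μ) - 2 * c * c := by
      rw [integral_sub hi2 (hi1.const_mul _), integral_const_mul, ← hc]
    have e6 : ∫ V, (((F V) ^ 2 - (2 * c) * F V) + c ^ 2) ∂(PM m μ) =
        ∫ V, ((F V) ^ 2 - (2 * c) * F V) ∂(PM m μ) + ∫ _V, c ^ 2 ∂(PM m μ) :=
      integral_add i1 (integrable_const _)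
    rw [e6, e5]
    simp
    ring
  rw [e3] at h
  exact h

/-- one step -/
theorem exp_step (X : (m → ℝ) → ℝ) (hX : Continuous X) (hX1 : ∀ V, |X V| ≤ 1) (a : ℝ)
    (hD : ∀ᵐ V ∂(PM m μ), ∑ v, (X V - X (Function.update V v 0)) ^ 2 ≤ a)
    (t : ℝ) (ht : t ^ 2 * a ≤ 1 / 4) :
    ∫ V, Real.exp (t * X V) ∂(PM m μ) ≤
      Real.exp (a * t ^ 2) * (∫ V, Real.exp (t / 2 * X V) ∂(PM m μ)) ^ 2 := by
  set Y : (m → ℝ) → ℝ := fun V => Real.exp (t / 2 * X V) with hY
  have hYc : Continuous Y := by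
    rw [hY]
    fun_prop
  have hYb : ∀ V, |Y V| ≤ Real.exp (|t|) := by
    intro V
    rw [hY]
    simp only [Real.abs_exp]
    apply Real.exp_le_exp.2
    calc t / 2 * X V ≤ |t / 2 * X V| := le_abs_self _
      _ = |t| / 2 * |X V| := by rw [abs_mul, abs_div, abs_two]
      _ ≤ |t| / 2 * 1 := mul_le_mul_of_nonneg_left (hX1 V) (by positivity)
      _ ≤ |t| := by have := abs_nonneg t; linarith
  have hY2 : ∀ V, (Y V) ^ 2 = Real.exp (t * X V) := by
    intro V
    rw [hY]
    simp only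
    rw [← Real.exp_nat_mul]
    congr 1
    push_cast
    ring
  have h := es_real μ Y hYc _ hYb
  simp only [hY2] at h
  have hi : Integrable (fun V => Real.exp (t * X V)) (PM m μ) := by
    refine Integrable.of_bound (by fun_prop) (Real.exp |t| ^ 2) (Eventually.of_forall fun V => ?_)
    rw [← hY2, Real.norm_eq_abs, abs_pow]
    exact pow_le_pow_left₀ (abs_nonneg _) (hYb V) 2
  have hiv : ∀ v, Integrable (fun V => (Y V - Y (Function.update V v 0)) ^ 2) (PM m μ) := by
    intro v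
    have hc : Continuous fun V : m → ℝ => Y V - Y (Function.update V v 0) :=
      hYc.sub (hYc.comp (continuous_id.update v continuous_const))
    refine Integrable.of_bound (hc.pow 2).aestronglyMeasurable ((2 * Real.exp |t|) ^ 2)
      (Eventually.of_forall fun V => ?_)
    rw [Real.norm_eq_abs, abs_pow]
    refine pow_le_pow_left₀ (abs_nonneg _) ?_ 2
    have := abs_sub (Y V) (Y (Function.update V v 0))
    have := hYb V
    have := hYb (Function.update V v 0)
    linarith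
  have hs : ∑ v, ∫ V, (Y V - Y (Function.update V v 0)) ^ 2 ∂(PM m μ) ≤
      a * t ^ 2 / 2 * ∫ V, Real.exp (t * X V) ∂(PM m μ) := by
    rw [← integral_finsetSum _ fun v _ => hiv v, ← integral_const_mul]
    refine integral_mono_ae (integrable_finsetSum _ fun v _ => hiv v) (hi.const_mul _) ?_
    filter_upwards [hD] with V hV
    have hone : ∀ v, (Y V - Y (Function.update V v 0)) ^ 2 ≤
        t ^ 2 / 2 * Real.exp (t * X V) * (X V - X (Function.update V v 0)) ^ 2 := by
      intro v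
      set D := X (Function.update V v 0) - X V with hDd
      have hD1 : D ^ 2 ≤ a := by
        refine le_trans ?_ hV
        have := Finset.single_le_sum (f := fun v => (X V - X (Function.update V v 0)) ^ 2)
          (fun _ _ => sq_nonneg _) (Finset.mem_univ v)
        calc D ^ 2 = (X V - X (Function.update V v 0)) ^ 2 := by rw [hDd]; ring
          _ ≤ _ := this
      set w := t / 2 * D with hw
      have hw2 : w ^ 2 ≤ 1 / 16 := by
        calc w ^ 2 = t ^ 2 * D ^ 2 / 4 := by rw [hw]; ring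
          _ ≤ t ^ 2 * a / 4 := by gcongr
          _ ≤ _ := by linarith
      have hw1 : |w| ≤ 1 / 4 := by
        rw [← Real.sqrt_sq_eq_abs]
        rw [show (1 / 4 : ℝ) = Real.sqrt ((1 / 4) ^ 2) from (Real.sqrt_sq (by norm_num)).symm]
        exact Real.sqrt_le_sqrt (by linarith)
      have e1 : Y (Function.update V v 0) = Y V * Real.exp w := by
        rw [hY]
        simp only
        rw [← Real.exp_add]
        congr 1
        rw [hw, hDd]
        ring
      have e2 : |Real.exp w - 1| ≤ |w| + w ^ 2 := by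
        have h1 := Real.abs_exp_sub_one_sub_id_le (x := w) (by linarith)
        have e3 : Real.exp w - 1 = (Real.exp w - 1 - w) + w := by ring
        rw [e3]
        exact (abs_add_le _ _).trans (by linarith)
      have e3 : (Real.exp w - 1) ^ 2 ≤ 2 * w ^ 2 := by
        rw [← sq_abs]
        have h0 := abs_nonneg w
        have h1 : |w| + w ^ 2 ≤ 5 / 4 * |w| := by
          have : w ^ 2 = |w| * |w| := by rw [← sq_abs, sq]
          nlinarith
        calc |Real.exp w - 1| ^ 2 ≤ (5 / 4 * |w|) ^ 2 :=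
              pow_le_pow_left₀ (abs_nonneg _) (e2.trans h1) 2
          _ = 25 / 16 * w ^ 2 := by rw [mul_pow, sq_abs]; ring
          _ ≤ _ := by nlinarith [sq_nonneg w]
      rw [e1, ← hY2 V]
      calc (Y V - Y V * Real.exp w) ^ 2 = (Y V) ^ 2 * (Real.exp w - 1) ^ 2 := by ring
        _ ≤ (Y V) ^ 2 * (2 * w ^ 2) := mul_le_mul_of_nonneg_left e3 (sq_nonneg _)
        _ = _ := by rw [hw, hDd]; ring
    calc ∑ v, (Y V - Y (Function.update V v 0)) ^ 2 ≤
          ∑ v, t ^ 2 / 2 * Real.exp (t * X V) * (X V - X (Function.update V v 0)) ^ 2 :=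
          Finset.sum_le_sum fun v _ => hone v
      _ = t ^ 2 / 2 * Real.exp (t * X V) * ∑ v, (X V - X (Function.update V v 0)) ^ 2 := by
          rw [← Finset.mul_sum]
      _ ≤ t ^ 2 / 2 * Real.exp (t * X V) * a :=
          mul_le_mul_of_nonneg_left hV (by positivity)
      _ = _ := by ring
  set M2 := ∫ V, Real.exp (t * X V) ∂(PM m μ) with hM2
  have hM20 : 0 ≤ M2 := integral_nonneg fun _ => (Real.exp_pos _).le
  set u := a * t ^ 2 / 2 with hu
  have hu1 : u ≤ 1 / 8 := by rw [hu]; linarith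
  have ha0 : 0 ≤ a ∨ a < 0 := le_or_gt 0 a
  have ha : 0 ≤ a := by
    obtain ⟨V, hV⟩ := hD.exists
    exact (Finset.sum_nonneg fun _ _ => sq_nonneg _).trans hV
  have hu0 : 0 ≤ u := by rw [hu]; positivity
  have h1 : M2 * (1 - u) ≤ (∫ V, Y V ∂(PM m μ)) ^ 2 := by linarith
  have h2 : 1 ≤ Real.exp (2 * u) * (1 - u) := by
    have h3 := Real.add_one_le_exp (2 * u)
    have h4 : (2 * u + 1) * (1 - u) ≤ Real.exp (2 * u) * (1 - u) :=
      mul_le_mul_of_nonneg_right h3 (by linarith)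
    nlinarith
  have h5 : Real.exp (a * t ^ 2) = Real.exp (2 * u) := by
    congr 1
    rw [hu]
    ring
  rw [h5]
  calc M2 = M2 * 1 := (mul_one _).symm
    _ ≤ M2 * (Real.exp (2 * u) * (1 - u)) := mul_le_mul_of_nonneg_left h2 hM20
    _ = Real.exp (2 * u) * (M2 * (1 - u)) := by ring
    _ ≤ _ := mul_le_mul_of_nonneg_left h1 (Real.exp_pos _).le

/-- iteration -/
theorem exp_iter (X : (m → ℝ) → ℝ) (hX : Continuous X) (hX1 : ∀ V, |X V| ≤ 1) (a : ℝ)
    (hD : ∀ᵐ V ∂(PM m μ), ∑ v, (X V - X (Function.update V v 0)) ^ 2 ≤ a) (n : ℕ) :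
    ∀ t : ℝ, t ^ 2 * a ≤ 1 / 4 → ∫ V, Real.exp (t * X V) ∂(PM m μ) ≤
      Real.exp (2 * a * t ^ 2 * (1 - 1 / 2 ^ n)) *
        (∫ V, Real.exp (t / 2 ^ n * X V) ∂(PM m μ)) ^ 2 ^ n := by
  induction n with
  | zero =>
    intro t _
    simp
  | succ n ih =>
    intro t ht
    have h1 := exp_step μ X hX hX1 a hD t ht
    have h2 := ih (t / 2) (by
      have h3 : 0 ≤ t ^ 2 * a ∨ t ^ 2 * a < 0 := le_or_gt 0 _
      have e1 : (t / 2) ^ 2 * a = t ^ 2 * a / 4 := by ring
      rw [e1]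
      linarith)
    have hn : 0 ≤ ∫ V, Real.exp (t / 2 * X V) ∂(PM m μ) :=
      integral_nonneg fun _ => (Real.exp_pos _).le
    have h3 := pow_le_pow_left₀ hn h2 2
    refine h1.trans ((mul_le_mul_of_nonneg_left h3 (Real.exp_pos _).le).trans (le_of_eq ?_))
    have e1 : t / 2 / 2 ^ n = t / 2 ^ (n + 1) := by rw [pow_succ]; field_simp
    rw [e1, mul_pow, ← pow_mul, ← pow_succ, ← mul_assoc, ← Real.exp_nat_mul, ← Real.exp_add]
    congr 2
    push_cast
    field_simp
    ring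

theorem exp_final (X : (m → ℝ) → ℝ) (hX : Continuous X) (hX1 : ∀ V, |X V| ≤ 1) (a : ℝ)
    (hD : ∀ᵐ V ∂(PM m μ), ∑ v, (X V - X (Function.update V v 0)) ^ 2 ≤ a)
    (t : ℝ) (ht : t ^ 2 * a ≤ 1 / 4) : ∫ V, Real.exp (t * X V) ∂(PM m μ) ≤
      Real.exp (t * (∫ V, X V ∂(PM m μ)) + 3 / 2) := by
  obtain ⟨n, hn⟩ : ∃ n : ℕ, t ^ 2 + |t| + 1 ≤ 2 ^ n := by
    obtain ⟨n, hn⟩ := pow_unbounded_of_one_lt (t ^ 2 + |t| + 1) (one_lt_two : (1 : ℝ) < 2)
    exact ⟨n, hn.le⟩
  have ha : 0 ≤ a := by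
    obtain ⟨V, hV⟩ := hD.exists
    exact (Finset.sum_nonneg fun _ _ => sq_nonneg _).trans hV
  have h1 := exp_iter μ X hX hX1 a hD n t ht
  have h2n : (0 : ℝ) < 2 ^ n := by positivity
  set u := t / 2 ^ n with hu
  have hu1 : |u| ≤ 1 := by
    rw [hu, abs_div, abs_of_pos h2n, div_le_one h2n]
    have := sq_nonneg t
    linarith
  have hi : Integrable X (PM m μ) :=
    Integrable.of_bound hX.aestronglyMeasurable 1 (Eventually.of_forall fun V => by
      rw [Real.norm_eq_abs]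
      exact hX1 V)
  have h2 : ∫ V, Real.exp (u * X V) ∂(PM m μ) ≤
      Real.exp (u * (∫ V, X V ∂(PM m μ)) + u ^ 2) := by
    have h3 : ∀ V, Real.exp (u * X V) ≤ 1 + u * X V + u ^ 2 := by
      intro V
      have hb : |u * X V| ≤ 1 := by
        rw [abs_mul]
        exact mul_le_one₀ hu1 (abs_nonneg _) (hX1 V)
      have h4 := (abs_le.1 (Real.abs_exp_sub_one_sub_id_le hb)).2
      have h5 : (u * X V) ^ 2 ≤ u ^ 2 := by
        rw [mul_pow]
        have : (X V) ^ 2 ≤ 1 := by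
          rw [← sq_abs]
          exact pow_le_one₀ (abs_nonneg _) (hX1 V)
        nlinarith [sq_nonneg u]
      linarith
    have hi1 : Integrable (fun V => Real.exp (u * X V)) (PM m μ) :=
      Integrable.of_bound (by fun_prop) (1 + 1 + 1) (Eventually.of_forall fun V => by
        rw [Real.norm_eq_abs, Real.abs_exp]
        refine (h3 V).trans ?_
        have hb : |u * X V| ≤ 1 := by
          rw [abs_mul]
          exact mul_le_one₀ hu1 (abs_nonneg _) (hX1 V)
        have := (le_abs_self _).trans hb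
        have : u ^ 2 ≤ 1 := by
          rw [← sq_abs]
          exact pow_le_one₀ (abs_nonneg _) hu1
        linarith)
    have i1 : Integrable (fun V => 1 + u * X V) (PM m μ) :=
      (integrable_const (1 : ℝ)).add (hi.const_mul u)
    have i2 : Integrable (fun V => 1 + u * X V + u ^ 2) (PM m μ) :=
      i1.add (integrable_const (u ^ 2))
    have h4 := integral_mono hi1 i2 h3
    refine h4.trans ?_
    have e2 : ∫ V, (1 + u * X V) ∂(PM m μ) = 1 + u * (∫ V, X V ∂(PM m μ)) := by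
      rw [integral_add (integrable_const _) (hi.const_mul u), integral_const_mul]
      simp
    have e1 : ∫ V, (1 + u * X V + u ^ 2) ∂(PM m μ) =
        1 + u * (∫ V, X V ∂(PM m μ)) + u ^ 2 := by
      have e3 : ∫ V, (1 + u * X V + u ^ 2) ∂(PM m μ) = ∫ V, (1 + u * X V) ∂(PM m μ) +
          ∫ _V, u ^ 2 ∂(PM m μ) := integral_add i1 (integrable_const _)
      rw [e3, e2]
      simp
    have h5 := Real.add_one_le_exp (u * (∫ V, X V ∂(PM m μ)) + u ^ 2)
    rw [e1]
    linarith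
  have h3 := pow_le_pow_left₀ (integral_nonneg fun _ => (Real.exp_pos _).le) h2 (2 ^ n)
  have h4 := mul_le_mul_of_nonneg_left h3
    (Real.exp_pos (2 * a * t ^ 2 * (1 - 1 / 2 ^ n))).le
  refine h1.trans (h4.trans ?_)
  rw [← Real.exp_nat_mul, ← Real.exp_add]
  apply Real.exp_le_exp.2
  have e1 : ((2 ^ n : ℕ) : ℝ) * (u * (∫ V, X V ∂(PM m μ)) + u ^ 2) =
      t * (∫ V, X V ∂(PM m μ)) + t ^ 2 / 2 ^ n := by
    rw [hu]
    push_cast
    field_simp
  rw [e1]
  have h5 : t ^ 2 / 2 ^ n ≤ 1 := by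
    rw [div_le_one h2n]
    have := abs_nonneg t
    linarith
  have h6 : 2 * a * t ^ 2 * (1 - 1 / 2 ^ n) ≤ 1 / 2 := by
    have h7 : 0 ≤ 2 * a * t ^ 2 := by positivity
    have h8 : 1 - 1 / (2 : ℝ) ^ n ≤ 1 := by
      have : 0 < 1 / (2 : ℝ) ^ n := by positivity
      linarith
    have := mul_le_mul_of_nonneg_left h8 h7
    linarith
  linarith

/-- **concentration**, upper tail -/
theorem conc_up (X : (m → ℝ) → ℝ) (hX : Continuous X) (hX1 : ∀ V, |X V| ≤ 1) (a : ℝ) (ha : 0 < a)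
    (hD : ∀ᵐ V ∂(PM m μ), ∑ v, (X V - X (Function.update V v 0)) ^ 2 ≤ a) (s : ℝ) :
    (PM m μ).real {V | s ≤ X V - ∫ U, X U ∂(PM m μ)} ≤
      5 * Real.exp (-(s / (2 * Real.sqrt a))) := by
  set t := 1 / (2 * Real.sqrt a) with ht
  have hsa : 0 < Real.sqrt a := Real.sqrt_pos.2 ha
  have ht0 : 0 < t := by rw [ht]; positivity
  have ht2 : t ^ 2 * a ≤ 1 / 4 := by
    rw [ht, div_pow, mul_pow, Real.sq_sqrt ha.le]
    apply le_of_eq
    field_simp
    norm_num
  have h1 := exp_final μ X hX hX1 a hD t ht2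
  set c := ∫ U, X U ∂(PM m μ) with hc
  have hi : Integrable (fun V => Real.exp (t * (X V - c - s))) (PM m μ) := by
    have hcc : |c| ≤ 1 := by
      have h2 := norm_integral_le_of_norm_le_const (μ := PM m μ) (f := X) (C := 1)
        (Eventually.of_forall fun V => by rw [Real.norm_eq_abs]; exact hX1 V)
      simpa using h2
    refine Integrable.of_bound (by fun_prop) (Real.exp (t * (2 + |s|)))
      (Eventually.of_forall fun V => ?_)
    rw [Real.norm_eq_abs, Real.abs_exp]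
    apply Real.exp_le_exp.2
    apply mul_le_mul_of_nonneg_left _ ht0.le
    have := (abs_le.1 (hX1 V)).2
    have := (abs_le.1 hcc).1
    have := neg_abs_le s
    linarith
  have h2 := mul_meas_ge_le_integral_of_nonneg (μ := PM m μ)
    (f := fun V => Real.exp (t * (X V - c - s)))
    (Eventually.of_forall fun V => (Real.exp_pos _).le) hi 1
  rw [one_mul] at h2
  have h3 : {V | s ≤ X V - c} ⊆ {V | 1 ≤ Real.exp (t * (X V - c - s))} := by
    intro V hV
    have h4 : s ≤ X V - c := hV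
    change 1 ≤ Real.exp (t * (X V - c - s))
    rw [← Real.exp_zero]
    apply Real.exp_le_exp.2
    apply mul_nonneg ht0.le
    linarith
  have h4 := measureReal_mono (μ := PM m μ) h3
  refine h4.trans (h2.trans ?_)
  have e1 : ∀ V, Real.exp (t * (X V - c - s)) =
      Real.exp (t * (-c - s)) * Real.exp (t * X V) := by
    intro V
    rw [← Real.exp_add]
    congr 1
    ring
  simp only [e1]
  rw [integral_const_mul]
  refine (mul_le_mul_of_nonneg_left h1 (Real.exp_pos _).le).trans ?_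
  rw [← Real.exp_add]
  have e2 : t * (-c - s) + (t * c + 3 / 2) = 3 / 2 + -(s / (2 * Real.sqrt a)) := by
    rw [ht]
    field_simp
    ring
  rw [e2, Real.exp_add]
  refine mul_le_mul_of_nonneg_right ?_ (Real.exp_pos _).le
  have h5 : Real.exp (3 / 2) ≤ Real.exp 1 ^ 2 := by
    rw [← Real.exp_nat_mul]
    apply Real.exp_le_exp.2
    norm_num
  have h6 : Real.exp (3 / 2) ^ 2 = Real.exp 1 ^ 3 := by
    rw [← Real.exp_nat_mul, ← Real.exp_nat_mul]
    congr 1
    norm_num
  have h7 := Real.exp_one_lt_d9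
  have h8 := Real.exp_pos 1
  have h9 := Real.exp_pos (3 / 2)
  have h10 : Real.exp 1 ^ 3 ≤ 25 := by
    calc Real.exp 1 ^ 3 ≤ 2.7182818286 ^ 3 := pow_le_pow_left₀ h8.le h7.le 3
      _ ≤ 25 := by norm_num
  nlinarith

/-- **concentration** -/
theorem conc (X : (m → ℝ) → ℝ) (hX : Continuous X) (hX1 : ∀ V, |X V| ≤ 1) (a : ℝ) (ha : 0 < a)
    (hD : ∀ᵐ V ∂(PM m μ), ∑ v, (X V - X (Function.update V v 0)) ^ 2 ≤ a) (s : ℝ) :
    (PM m μ).real {V | s ≤ |X V - ∫ U, X U ∂(PM m μ)|} ≤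
      10 * Real.exp (-(s / (2 * Real.sqrt a))) := by
  have h1 := conc_up μ X hX hX1 a ha hD s
  have h2 := conc_up μ (fun V => -X V) hX.neg (fun V => by rw [abs_neg]; exact hX1 V) a ha
    (hD.mono fun V hV => by
      refine le_trans (le_of_eq ?_) hV
      refine Finset.sum_congr rfl fun v _ => ?_
      ring) s
  rw [integral_neg] at h2
  have h3 : {V | s ≤ |X V - ∫ U, X U ∂(PM m μ)|} ⊆
      {V | s ≤ X V - ∫ U, X U ∂(PM m μ)} ∪ {V | s ≤ -X V - -∫ U, X U ∂(PM m μ)} := by
    intro V hV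
    have h4 : s ≤ |X V - ∫ U, X U ∂(PM m μ)| := hV
    rcases le_abs.1 h4 with h5 | h5
    · exact Or.inl h5
    · refine Or.inr ?_
      change s ≤ -X V - -∫ U, X U ∂(PM m μ)
      linarith
  have h4 := (measureReal_mono (μ := PM m μ) h3).trans (measureReal_union_le _ _)
  linarith

end Pool.Agent.Zk11.QQ
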