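import Pool.Agent.Zk11.QQ.Tg

/-! The effect of a change of the potential at one site on averages of the squared resolvent. -/

set_option autoImplicit false
set_option linter.unusedSectionVars false

open scoped BigOperators Topology
open MeasureTheory Filter

namespace Pool.Agent.Zk11.QQ

open Pool.Agent.Zk11.QD
open Pool.Agent.W788.MFP.Four (T)

variable {d L : ℕ} [NeZero L] {z : ℂ} {σ : ℝ}

/-- the weighted average -/
noncomputable def FB (z : ℂ) (σ : ℝ) (χ c : T d L → ℂ) (B : Finset (T d L)) (V : T d L → ℝ) : ℂ :=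
  (B.card : ℂ)⁻¹ * ∑ y ∈ B, c y * ((z.im : ℂ) * ∑ x, χ x * ((‖gg z σ V x y‖ ^ 2 : ℝ) : ℂ))

/-- the average of the diagonal -/
noncomputable def SB (z : ℂ) (σ : ℝ) (B : Finset (T d L)) (V : T d L → ℝ) : ℝ :=
  (B.card : ℝ)⁻¹ * ∑ y ∈ B, (gg z σ V y y).im

theorem SB_nonneg (hz : 0 < z.im) (B : Finset (T d L)) (V : T d L → ℝ) : 0 ≤ SB z σ B V :=
  mul_nonneg (by positivity) (Finset.sum_nonneg fun y _ => ggi_nonneg hz V y)

theorem SB_FB (hz : 0 < z.im) (B : Finset (T d L)) (V : T d L → ℝ) :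
    ((SB z σ B V : ℝ) : ℂ) = FB z σ (fun _ => 1) (fun _ => 1) B V := by
  unfold SB FB
  push_cast
  congr 1
  refine Finset.sum_congr rfl fun y _ => ?_
  rw [← ward hz V y]
  push_cast
  simp

theorem FB_le (hz : 0 < z.im) (χ c : T d L → ℂ) (hχ : ∀ x, ‖χ x‖ ≤ 1) (hc : ∀ x, ‖c x‖ ≤ 1)
    (B : Finset (T d L)) (V : T d L → ℝ) : ‖FB z σ χ c B V‖ ≤ SB z σ B V := by
  unfold SB FB
  rw [norm_mul, norm_inv, Complex.norm_natCast]
  refine mul_le_mul_of_nonneg_left ?_ (by positivity)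
  refine (norm_sum_le _ _).trans (Finset.sum_le_sum fun y _ => ?_)
  rw [norm_mul, norm_mul, Complex.norm_real, Real.norm_eq_abs, abs_of_pos hz, ← ward hz V y]
  have h1 : ‖∑ x, χ x * ((‖gg z σ V x y‖ ^ 2 : ℝ) : ℂ)‖ ≤ ∑ x, ‖gg z σ V x y‖ ^ 2 := by
    refine (norm_sum_le _ _).trans (Finset.sum_le_sum fun x _ => ?_)
    rw [norm_mul, Complex.norm_real, Real.norm_eq_abs, abs_of_nonneg (by positivity)]
    exact mul_le_of_le_one_left (by positivity) (hχ x)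
  calc ‖c y‖ * (z.im * ‖∑ x, χ x * ((‖gg z σ V x y‖ ^ 2 : ℝ) : ℂ)‖) ≤
        1 * (z.im * ∑ x, ‖gg z σ V x y‖ ^ 2) :=
        mul_le_mul (hc y) (mul_le_mul_of_nonneg_left h1 hz.le)
          (mul_nonneg hz.le (norm_nonneg _)) zero_le_one
    _ = _ := one_mul _

/-- the first kernel -/
noncomputable def K1 (z : ℂ) (σ : ℝ) (χ : T d L → ℂ) (V : T d L → ℝ) (y v : T d L) : ℂ :=
  ∑ x, χ x * ((starRingEnd ℂ) (gg z σ V x y) * gg z σ V x v)

theorem K1_sum (hz : 0 < z.im) (χ : T d L → ℂ) (hχ : ∀ x, ‖χ x‖ ≤ 1) (V : T d L → ℝ)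
    (y : T d L) : ∑ v, ‖K1 z σ χ V y v‖ ^ 2 ≤ 1 / z.im ^ 2 * ((gg z σ V y y).im / z.im) := by
  have h1 : ∀ v, K1 z σ χ V y v = ∑ x, gg z σ V v x * (χ x * (starRingEnd ℂ) (gg z σ V x y)) := by
    intro v
    unfold K1
    refine Finset.sum_congr rfl fun x _ => ?_
    rw [gg_symm V x v]
    ring
  simp only [h1]
  refine (gg_norm hz V _).trans (mul_le_mul_of_nonneg_left ?_ (by positivity))
  rw [← ward' hz V y]
  refine Finset.sum_le_sum fun x _ => ?_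
  rw [norm_mul, RCLike.norm_conj]
  exact pow_le_pow_left₀ (by positivity) (mul_le_of_le_one_left (norm_nonneg _) (hχ x)) 2

theorem K1_conj (χ : T d L → ℂ) (V : T d L → ℝ) (y v : T d L) :
    ∑ x, χ x * (gg z σ V x y * (starRingEnd ℂ) (gg z σ V x v)) =
      (starRingEnd ℂ) (K1 z σ (fun x => (starRingEnd ℂ) (χ x)) V y v) := by
  unfold K1
  rw [map_sum]
  refine Finset.sum_congr rfl fun x _ => ?_
  rw [map_mul, map_mul, Complex.conj_conj, Complex.conj_conj]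

/-- the change of one term -/
theorem one_change (hz : 0 < z.im) (χ : T d L → ℂ) (hχ : ∀ x, ‖χ x‖ ≤ 1) (V : T d L → ℝ)
    (y v : T d L) :
    ‖∑ x, χ x * ((‖gg z σ (Function.update V v 0) x y‖ ^ 2 : ℝ) : ℂ) -
      ∑ x, χ x * ((‖gg z σ V x y‖ ^ 2 : ℝ) : ℂ)‖ ≤
    |σ * V v| * ‖gg z σ (Function.update V v 0) v y‖ * (‖K1 z σ χ V y v‖ +
      ‖K1 z σ (fun x => (starRingEnd ℂ) (χ x)) V y v‖) +
    (σ * V v) ^ 2 * (‖gg z σ V v y‖ ^ 2 * ((gg z σ (Function.update V v 0) v v).im / z.im)) := by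
  set V' := Function.update V v 0 with hV'
  set t : ℝ := σ * V v with ht
  set w := gg z σ V' v y with hw
  have h1 : ∀ x, ((‖gg z σ V' x y‖ ^ 2 : ℝ) : ℂ) = ((‖gg z σ V x y‖ ^ 2 : ℝ) : ℂ) +
      (t : ℂ) * w * ((starRingEnd ℂ) (gg z σ V x y) * gg z σ V x v) +
      (t : ℂ) * (starRingEnd ℂ) w * (gg z σ V x y * (starRingEnd ℂ) (gg z σ V x v)) +
      ((t ^ 2 * (‖w‖ ^ 2 * ‖gg z σ V x v‖ ^ 2) : ℝ) : ℂ) := by
    intro x
    push_cast
    rw [← Complex.mul_conj', ← Complex.mul_conj', ← Complex.mul_conj', ← Complex.mul_conj',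
      gg_up hz V v x y, map_add, map_mul, map_mul, Complex.conj_ofReal]
    ring
  have h2 : ∑ x, χ x * ((‖gg z σ V' x y‖ ^ 2 : ℝ) : ℂ) -
      ∑ x, χ x * ((‖gg z σ V x y‖ ^ 2 : ℝ) : ℂ) = (t : ℂ) * w * K1 z σ χ V y v +
      (t : ℂ) * (starRingEnd ℂ) w * (starRingEnd ℂ)
        (K1 z σ (fun x => (starRingEnd ℂ) (χ x)) V y v) +
      ∑ x, χ x * ((t ^ 2 * (‖w‖ ^ 2 * ‖gg z σ V x v‖ ^ 2) : ℝ) : ℂ) := by
    rw [← K1_conj]
    unfold K1
    rw [Finset.mul_sum, Finset.mul_sum, ← Finset.sum_sub_distrib, ← Finset.sum_add_distrib,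
      ← Finset.sum_add_distrib]
    refine Finset.sum_congr rfl fun x _ => ?_
    rw [h1 x]
    ring
  rw [h2]
  refine (norm_add_le _ _).trans ?_
  have h3 : ‖∑ x, χ x * ((t ^ 2 * (‖w‖ ^ 2 * ‖gg z σ V x v‖ ^ 2) : ℝ) : ℂ)‖ ≤
      t ^ 2 * (‖gg z σ V v y‖ ^ 2 * ((gg z σ V' v v).im / z.im)) := by
    have h4 : ∑ x, t ^ 2 * (‖w‖ ^ 2 * ‖gg z σ V x v‖ ^ 2) =
        t ^ 2 * (‖gg z σ V v y‖ ^ 2 * ((gg z σ V' v v).im / z.im)) := by
      rw [← ward' hz V' v, Finset.mul_sum, Finset.mul_sum]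
      refine Finset.sum_congr rfl fun x _ => ?_
      have h5 := congrArg (fun c : ℂ => ‖c‖ ^ 2) (gg_prod (σ := σ) hz V v x y)
      simp only [norm_mul, mul_pow] at h5
      rw [hw, h5]
      ring
    rw [← h4]
    refine (norm_sum_le _ _).trans (Finset.sum_le_sum fun x _ => ?_)
    rw [norm_mul, Complex.norm_real, Real.norm_eq_abs, abs_of_nonneg (by positivity)]
    exact mul_le_of_le_one_left (by positivity) (hχ x)
  refine add_le_add ?_ h3
  refine (norm_add_le _ _).trans (le_of_eq ?_)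
  rw [norm_mul, norm_mul, norm_mul, norm_mul, RCLike.norm_conj, RCLike.norm_conj,
    Complex.norm_real, Real.norm_eq_abs]
  ring

/-- **the change at one site, summed** -/
theorem D_bound (hz : 0 < z.im) (χ c : T d L → ℂ) (hχ : ∀ x, ‖χ x‖ ≤ 1) (hc : ∀ x, ‖c x‖ ≤ 1)
    (B : Finset (T d L)) (hB : B.Nonempty) (V : T d L → ℝ) (β : ℝ) (hβ : ∀ v, |σ * V v| ≤ β) :
    ∑ v, ‖FB z σ χ c B V - FB z σ χ c B (Function.update V v 0)‖ ^ 2 ≤
      16 * β ^ 2 / (z.im ^ 3 * B.card) * SB z σ B V := by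
  have hN : (0 : ℝ) < B.card := by exact_mod_cast hB.card_pos
  set N : ℝ := (B.card : ℝ) with hNd
  set η := z.im with hη
  have hβ0 : 0 ≤ β := (abs_nonneg _).trans (hβ 0)
  set k : T d L → ℝ := fun v => ∑ y ∈ B, (‖K1 z σ χ V y v‖ +
    ‖K1 z σ (fun x => (starRingEnd ℂ) (χ x)) V y v‖) ^ 2 with hk
  set g : T d L → ℝ := fun v => ∑ y ∈ B, ‖gg z σ V v y‖ ^ 2 with hg
  -- one site
  have hone : ∀ v, ‖FB z σ χ c B V - FB z σ χ c B (Function.update V v 0)‖ ^ 2 ≤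
      2 * (β ^ 2 / N ^ 2 * k v) + 2 * (4 * β ^ 2 / (N ^ 2 * η ^ 2) * g v) := by
    intro v
    set V' := Function.update V v 0 with hV'
    set t : ℝ := σ * V v with ht
    set a' := gg z σ V' v v with ha'
    have hai := ggi_pos (σ := σ) hz V v
    have hai' : 0 < a'.im := ggi_pos (σ := σ) hz V' v
    have ha'1 : a'.im ≤ 1 / η := ggi_le (σ := σ) hz V' v
    have htβ : t ^ 2 ≤ β ^ 2 := by
      rw [← sq_abs]
      exact pow_le_pow_left₀ (abs_nonneg _) (hβ v) 2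
    have h1 : ‖FB z σ χ c B V - FB z σ χ c B V'‖ ≤ N⁻¹ * (∑ y ∈ B, η *
        (|t| * ‖gg z σ V' v y‖ * (‖K1 z σ χ V y v‖ +
          ‖K1 z σ (fun x => (starRingEnd ℂ) (χ x)) V y v‖) +
          t ^ 2 * (‖gg z σ V v y‖ ^ 2 * (a'.im / η)))) := by
      unfold FB
      rw [← mul_sub, norm_mul, norm_inv, Complex.norm_natCast, ← Finset.sum_sub_distrib]
      refine mul_le_mul_of_nonneg_left ?_ (by positivity)
      refine (norm_sum_le _ _).trans (Finset.sum_le_sum fun y _ => ?_)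
      rw [← mul_sub, norm_mul, ← mul_sub, norm_mul, Complex.norm_real, Real.norm_eq_abs,
        abs_of_pos hz, norm_sub_rev]
      have h2 := one_change (σ := σ) hz χ hχ V y v
      calc _ ≤ 1 * (η * _) := mul_le_mul (hc y) (mul_le_mul_of_nonneg_left h2 hz.le)
            (mul_nonneg hz.le (norm_nonneg _)) zero_le_one
        _ = _ := one_mul _
    have h2 : ∑ y ∈ B, η * (|t| * ‖gg z σ V' v y‖ * (‖K1 z σ χ V y v‖ +
          ‖K1 z σ (fun x => (starRingEnd ℂ) (χ x)) V y v‖) +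
          t ^ 2 * (‖gg z σ V v y‖ ^ 2 * (a'.im / η))) =
        η * |t| * (∑ y ∈ B, ‖gg z σ V' v y‖ * (‖K1 z σ χ V y v‖ +
          ‖K1 z σ (fun x => (starRingEnd ℂ) (χ x)) V y v‖)) + t ^ 2 * a'.im * g v := by
      rw [hg]
      simp only
      rw [Finset.mul_sum, Finset.mul_sum, ← Finset.sum_add_distrib]
      refine Finset.sum_congr rfl fun y _ => ?_
      have : η ≠ 0 := hz.ne'
      field_simp
    rw [h2] at h1
    set A1 := ∑ y ∈ B, ‖gg z σ V' v y‖ * (‖K1 z σ χ V y v‖ +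
          ‖K1 z σ (fun x => (starRingEnd ℂ) (χ x)) V y v‖) with hA1
    have hA10 : 0 ≤ A1 := Finset.sum_nonneg fun _ _ => by positivity
    have hA : A1 ^ 2 ≤ 1 / η ^ 2 * k v := by
      refine (Finset.sum_mul_sq_le_sq_mul_sq _ _ _).trans ?_
      refine mul_le_mul_of_nonneg_right ?_ (Finset.sum_nonneg fun _ _ => by positivity)
      calc ∑ y ∈ B, ‖gg z σ V' v y‖ ^ 2 ≤ ∑ y, ‖gg z σ V' v y‖ ^ 2 :=
            Finset.sum_le_univ_sum_of_nonneg fun _ => by positivity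
        _ = a'.im / η := by
            rw [ha', hη, ← ward' hz V' v]
            exact Finset.sum_congr rfl fun y _ => by rw [gg_symm]
        _ ≤ (1 / η) / η := by gcongr
        _ = _ := by field_simp
    have hg0 : 0 ≤ g v := Finset.sum_nonneg fun _ _ => by positivity
    have hgv : g v ≤ (gg z σ V v v).im / η := by
      rw [hη, ← ward' hz V v]
      calc g v ≤ ∑ y, ‖gg z σ V v y‖ ^ 2 :=
            Finset.sum_le_univ_sum_of_nonneg fun _ => by positivity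
        _ = _ := Finset.sum_congr rfl fun y _ => by rw [gg_symm]
    have hsc : t ^ 2 * (a'.im * (gg z σ V v v).im) ≤ 4 :=
      sc_bound (gg z σ V v v) a' t hai hai' (gg_up hz V v v v)
    have hB2 : (t ^ 2 * a'.im * g v) ^ 2 ≤ 4 * β ^ 2 / η ^ 2 * g v := by
      have e1 : t ^ 2 * a'.im * g v ≤ 4 / η := by
        calc t ^ 2 * a'.im * g v ≤ t ^ 2 * a'.im * ((gg z σ V v v).im / η) := by gcongr
          _ = t ^ 2 * (a'.im * (gg z σ V v v).im) / η := by ring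
          _ ≤ 4 / η := by gcongr
      have e2 : t ^ 2 * a'.im * g v ≤ β ^ 2 * (1 / η) * g v := by gcongr
      calc (t ^ 2 * a'.im * g v) ^ 2 = (t ^ 2 * a'.im * g v) * (t ^ 2 * a'.im * g v) := by ring
        _ ≤ (4 / η) * (β ^ 2 * (1 / η) * g v) := by
            apply mul_le_mul e1 e2 (by positivity) (by positivity)
        _ = _ := by field_simp
    have h3 : ‖FB z σ χ c B V - FB z σ χ c B V'‖ ^ 2 ≤
        (N⁻¹ * (η * |t| * A1 + t ^ 2 * a'.im * g v)) ^ 2 :=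
      pow_le_pow_left₀ (norm_nonneg _) h1 2
    refine h3.trans ?_
    have e1 : (N⁻¹ * (η * |t| * A1 + t ^ 2 * a'.im * g v)) ^ 2 ≤
        N⁻¹ ^ 2 * (2 * (η * |t| * A1) ^ 2 + 2 * (t ^ 2 * a'.im * g v) ^ 2) := by
      rw [mul_pow]
      refine mul_le_mul_of_nonneg_left ?_ (by positivity)
      nlinarith [sq_nonneg (η * |t| * A1 - t ^ 2 * a'.im * g v)]
    refine e1.trans ?_
    have e2 : (η * |t| * A1) ^ 2 ≤ β ^ 2 * k v := by
      calc (η * |t| * A1) ^ 2 = η ^ 2 * t ^ 2 * A1 ^ 2 := by rw [mul_pow, mul_pow, sq_abs]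
        _ ≤ η ^ 2 * β ^ 2 * (1 / η ^ 2 * k v) := by gcongr
        _ = _ := by field_simp
    calc N⁻¹ ^ 2 * (2 * (η * |t| * A1) ^ 2 + 2 * (t ^ 2 * a'.im * g v) ^ 2) ≤
          N⁻¹ ^ 2 * (2 * (β ^ 2 * k v) + 2 * (4 * β ^ 2 / η ^ 2 * g v)) := by gcongr
      _ = _ := by field_simp
  -- sums
  have hksum : ∑ v, k v ≤ 4 / η ^ 3 * ∑ y ∈ B, (gg z σ V y y).im := by
    rw [hk]
    simp only
    rw [Finset.sum_comm, Finset.mul_sum]
    refine Finset.sum_le_sum fun y _ => ?_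
    have e1 := K1_sum (σ := σ) hz χ hχ V y
    have e2 := K1_sum (σ := σ) hz (fun x => (starRingEnd ℂ) (χ x))
      (fun x => by rw [RCLike.norm_conj]; exact hχ x) V y
    calc ∑ v, (‖K1 z σ χ V y v‖ + ‖K1 z σ (fun x => (starRingEnd ℂ) (χ x)) V y v‖) ^ 2 ≤
          ∑ v, (2 * ‖K1 z σ χ V y v‖ ^ 2 +
            2 * ‖K1 z σ (fun x => (starRingEnd ℂ) (χ x)) V y v‖ ^ 2) := by
          refine Finset.sum_le_sum fun v _ => ?_
          nlinarith [sq_nonneg (‖K1 z σ χ V y v‖ -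
            ‖K1 z σ (fun x => (starRingEnd ℂ) (χ x)) V y v‖)]
      _ ≤ 2 * (1 / η ^ 2 * ((gg z σ V y y).im / η)) +
          2 * (1 / η ^ 2 * ((gg z σ V y y).im / η)) := by
          rw [Finset.sum_add_distrib, ← Finset.mul_sum, ← Finset.mul_sum]
          exact add_le_add (mul_le_mul_of_nonneg_left e1 (by norm_num))
            (mul_le_mul_of_nonneg_left e2 (by norm_num))
      _ = _ := by
          have : η ≠ 0 := hz.ne'
          field_simp
          ring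
  have hgsum : ∑ v, g v = 1 / η * ∑ y ∈ B, (gg z σ V y y).im := by
    rw [hg]
    simp only
    rw [Finset.sum_comm, Finset.mul_sum]
    refine Finset.sum_congr rfl fun y _ => ?_
    rw [ward' hz V y]
    ring
  calc ∑ v, ‖FB z σ χ c B V - FB z σ χ c B (Function.update V v 0)‖ ^ 2 ≤
        ∑ v, (2 * (β ^ 2 / N ^ 2 * k v) + 2 * (4 * β ^ 2 / (N ^ 2 * η ^ 2) * g v)) :=
        Finset.sum_le_sum fun v _ => hone v
    _ = 2 * (β ^ 2 / N ^ 2) * ∑ v, k v + 2 * (4 * β ^ 2 / (N ^ 2 * η ^ 2)) * ∑ v, g v := by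
        rw [Finset.sum_add_distrib, ← Finset.mul_sum, ← Finset.mul_sum, ← Finset.mul_sum,
          ← Finset.mul_sum]
        ring
    _ ≤ 2 * (β ^ 2 / N ^ 2) * (4 / η ^ 3 * ∑ y ∈ B, (gg z σ V y y).im) +
        2 * (4 * β ^ 2 / (N ^ 2 * η ^ 2)) * (1 / η * ∑ y ∈ B, (gg z σ V y y).im) := by
        rw [hgsum]
        gcongr
    _ = _ := by
        unfold SB
        rw [← hNd]
        have : η ≠ 0 := hz.ne'
        field_simp
        ring

end Pool.Agent.Zk11.QQ
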