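import Pool.Agent.Zk11.QQ.Zc

/-! Continuity in the parameters. -/

set_option autoImplicit false
set_option linter.unusedSectionVars false

open scoped BigOperators Topology ENNReal
open MeasureTheory Filter

namespace Pool.Agent.Zk11.QQ

open Pool.Agent.Zk11.QD
open Pool.Agent.W788.MFP.Four (T e e_add e_zero e_neg)

variable {d : ℕ}

theorem vma_one (L : ℕ) [NeZero L] : (1 : ZMod L).valMinAbs.natAbs ≤ 1 := by
  have h1 : (1 : ZMod L) = (((1 : ℕ) : ℤ) : ZMod L) := by simp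
  have h2 := ZMod.natAbs_valMinAbs_le (1 : ZMod L)
  rcases Nat.lt_or_ge L 2 with h | h
  · have : L / 2 = 0 := by omega
    omega
  · have h3 : (1 : ZMod L).valMinAbs = 1 := by
      rw [ZMod.valMinAbs_spec]
      refine ⟨by simp, ?_, ?_⟩
      · have : (0 : ℤ) < L := by exact_mod_cast (by omega : 0 < L)
        omega
      · have : (2 : ℤ) ≤ L := by exact_mod_cast h
        omega
    rw [h3]
    norm_num

theorem vma_step (L : ℕ) [NeZero L] (a c : ZMod L) (hc : c.valMinAbs.natAbs ≤ 1) :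
    (a + c).valMinAbs.natAbs ≤ a.valMinAbs.natAbs + 1 := by
  have h1 := ZMod.natAbs_valMinAbs_add_le a c
  have h2 := Int.natAbs_add_le a.valMinAbs c.valMinAbs
  omega

/-- the weight -/
noncomputable def wt {L : ℕ} (j : Fin d) (t : T d L) : ℝ := ((t j).valMinAbs.natAbs : ℝ)

theorem wt_lip {L : ℕ} [NeZero L] (j i : Fin d) (t : T d L) :
    |wt j (t + Pi.single i 1) - wt j t| ≤ if i = j then 1 else 0 := by
  unfold wt
  by_cases h : i = j
  · subst h
    rw [if_pos rfl, Pi.add_apply, Pi.single_eq_same]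
    have h1 := vma_step L (t i) 1 (vma_one L)
    have h2 := vma_step L (t i + 1) (-1) (by
      have := vma_one L
      rwa [ZMod.natAbs_valMinAbs_neg])
    rw [add_neg_cancel_right] at h2
    rw [abs_le]
    have h1' : ((t i + 1).valMinAbs.natAbs : ℝ) ≤ (t i).valMinAbs.natAbs + 1 := by exact_mod_cast h1
    have h2' : ((t i).valMinAbs.natAbs : ℝ) ≤ (t i + 1).valMinAbs.natAbs + 1 := by exact_mod_cast h2
    constructor <;> linarith
  · rw [if_neg h, Pi.add_apply, Pi.single_eq_of_ne (Ne.symm h), add_zero, sub_self, abs_zero]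

theorem wt_lip' {L : ℕ} [NeZero L] (j i : Fin d) (t : T d L) :
    |wt j (t - Pi.single i 1) - wt j t| ≤ if i = j then 1 else 0 := by
  have h := wt_lip j i (t - Pi.single i 1)
  rw [sub_add_cancel, abs_sub_comm] at h
  exact h

/-- second moments on the torus -/
theorem mom_tor {L : ℕ} [NeZero L] (z : ℂ) (hz : 0 < z.im) (σ : ℝ) (V : T d L → ℝ) (j : Fin d) :
    ∑ t, wt j t ^ 2 * ‖uu z σ V t‖ ^ 2 ≤ 4 / z.im ^ 4 := by
  set u := uu z σ V with hu
  have h1 := Hz_coercive hz (σ := σ) V (fun t => ((wt j t : ℝ) : ℂ) * u t)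
  have h2 : ∀ t, ‖Hz z σ V (fun t => ((wt j t : ℝ) : ℂ) * u t) t‖ ^ 2 ≤
      2 * ‖u (t + Pi.single j 1)‖ ^ 2 + 2 * ‖u (t - Pi.single j 1)‖ ^ 2 := by
    intro t
    have h3 : Hz z σ V (fun t => ((wt j t : ℝ) : ℂ) * u t) t =
        ((wt j t : ℝ) : ℂ) * Hz z σ V u t -
        ∑ i : Fin d, (((wt j (t + Pi.single i 1) - wt j t : ℝ) : ℂ) * u (t + Pi.single i 1) +
          ((wt j (t - Pi.single i 1) - wt j t : ℝ) : ℂ) * u (t - Pi.single i 1)) := by
      unfold Hz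
      rw [mul_sub, Finset.mul_sum, sub_sub, ← Finset.sum_add_distrib]
      congr 1
      · ring
      · refine Finset.sum_congr rfl fun i _ => ?_
        push_cast
        ring
    have h4 : ((wt j t : ℝ) : ℂ) * Hz z σ V u t = 0 := by
      rw [hu, uu_eq z hz σ V t]
      by_cases h5 : t = 0
      · subst h5
        have : wt j (0 : T d L) = 0 := by
          unfold wt
          simp
        rw [this]
        simp
      · rw [if_neg h5, mul_zero]
    have h5 : ‖∑ i : Fin d, (((wt j (t + Pi.single i 1) - wt j t : ℝ) : ℂ) *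
        u (t + Pi.single i 1) + ((wt j (t - Pi.single i 1) - wt j t : ℝ) : ℂ) *
        u (t - Pi.single i 1))‖ ≤ ‖u (t + Pi.single j 1)‖ + ‖u (t - Pi.single j 1)‖ := by
      calc _ ≤ ∑ i : Fin d, (if i = j then (‖u (t + Pi.single i 1)‖ +
            ‖u (t - Pi.single i 1)‖) else 0) := by
            refine (norm_sum_le _ _).trans (Finset.sum_le_sum fun i _ => ?_)
            refine (norm_add_le _ _).trans ?_
            rw [norm_mul, norm_mul, Complex.norm_real, Complex.norm_real, Real.norm_eq_abs,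
              Real.norm_eq_abs]
            have e1 := wt_lip j i t
            have e2 := wt_lip' j i t
            by_cases h6 : i = j
            · rw [if_pos h6] at e1 e2
              rw [if_pos h6]
              have n1 := norm_nonneg (u (t + Pi.single i 1))
              have n2 := norm_nonneg (u (t - Pi.single i 1))
              have m1 := mul_le_mul_of_nonneg_right e1 n1
              have m2 := mul_le_mul_of_nonneg_right e2 n2
              linarith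
            · rw [if_neg h6] at e1 e2
              rw [if_neg h6]
              have n1 := norm_nonneg (u (t + Pi.single i 1))
              have n2 := norm_nonneg (u (t - Pi.single i 1))
              have m1 := mul_le_mul_of_nonneg_right e1 n1
              have m2 := mul_le_mul_of_nonneg_right e2 n2
              linarith
        _ = _ := by
            rw [Finset.sum_ite_eq' Finset.univ j]
            simp
    rw [h3, h4, zero_sub, norm_neg]
    refine (pow_le_pow_left₀ (norm_nonneg _) h5 2).trans ?_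
    nlinarith [sq_nonneg (‖u (t + Pi.single j 1)‖ - ‖u (t - Pi.single j 1)‖)]
  have h3 := h1.trans (Finset.sum_le_sum fun t _ => h2 t)
  have h4 : ∑ t : T d L, (2 * ‖u (t + Pi.single j 1)‖ ^ 2 + 2 * ‖u (t - Pi.single j 1)‖ ^ 2) =
      4 * ∑ t, ‖u t‖ ^ 2 := by
    rw [Finset.sum_add_distrib, ← Finset.mul_sum, ← Finset.mul_sum]
    have e1 : ∑ t : T d L, ‖u (t + Pi.single j 1)‖ ^ 2 = ∑ t, ‖u t‖ ^ 2 :=
      Equiv.sum_comp (Equiv.addRight (Pi.single j 1)) (fun t : T d L => ‖u t‖ ^ 2)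
    have e2 : ∑ t : T d L, ‖u (t - Pi.single j 1)‖ ^ 2 = ∑ t, ‖u t‖ ^ 2 :=
      Equiv.sum_comp (Equiv.subRight (Pi.single j 1)) (fun t : T d L => ‖u t‖ ^ 2)
    rw [e1, e2]
    ring
  rw [h4] at h3
  have h5 := uu_norm z hz σ V
  have h6 : z.im ^ 2 * ∑ t, ‖((wt j t : ℝ) : ℂ) * u t‖ ^ 2 ≤ 4 * (1 / z.im ^ 2) :=
    h3.trans (mul_le_mul_of_nonneg_left h5 (by norm_num))
  have h7 : ∀ t, ‖((wt j t : ℝ) : ℂ) * u t‖ ^ 2 = wt j t ^ 2 * ‖u t‖ ^ 2 := by
    intro t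
    rw [norm_mul, Complex.norm_real, Real.norm_eq_abs, mul_pow, sq_abs]
  simp only [h7] at h6
  rw [le_div_iff₀ (by positivity)]
  have hz2 : 0 < z.im ^ 2 := by positivity
  calc (∑ t, wt j t ^ 2 * ‖u t‖ ^ 2) * z.im ^ 4 =
        z.im ^ 2 * (z.im ^ 2 * ∑ t, wt j t ^ 2 * ‖u t‖ ^ 2) := by ring
    _ ≤ z.im ^ 2 * (4 * (1 / z.im ^ 2)) := mul_le_mul_of_nonneg_left h6 hz2.le
    _ = 4 := by field_simp

/-- moments on the lattice -/
theorem mom_lat (lam : ℝ) (z : ℂ) (hz : 0 < z.im) (ω : Zd d → ℝ) (j : Fin d) (F : Finset (Zd d)) :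
    ∑ y ∈ F, |(y j : ℝ)| * ‖Gc lam z ω y‖ ^ 2 ≤ 4 / z.im ^ 4 := by
  classical
  have hG := Gc_isG lam z hz ω
  have h1 : Tendsto (fun h : ℕ => ∑ y ∈ F, |(y j : ℝ)| ^ 2 *
      ‖uu z lam (VL h ω) (pr (2 * h + 1) y)‖ ^ 2) atTop
      (𝓝 (∑ y ∈ F, |(y j : ℝ)| ^ 2 * ‖Gc lam z ω y‖ ^ 2)) :=
    tendsto_finsetSum _ fun y _ => ((pt_lim lam ω z hz _ hG y).norm.pow 2).const_mul _
  have h2 : ∑ y ∈ F, |(y j : ℝ)| ^ 2 * ‖Gc lam z ω y‖ ^ 2 ≤ 4 / z.im ^ 4 := by
    refine le_of_tendsto h1 ?_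
    have h3 : ∀ᶠ h : ℕ in atTop, ∀ y ∈ F, ∀ i, |y i| ≤ h := by
      rw [Filter.eventually_all_finset]
      intro y _
      exact in_box y
    filter_upwards [h3] with h hh
    refine le_trans ?_ (mom_tor z hz lam (VL h ω) j)
    have hinj : Set.InjOn (pr (2 * h + 1)) (F : Set (Zd d)) := by
      intro a ha c hc hac
      rw [← lift_pr a (hh a ha), ← lift_pr c (hh c hc), hac]
    have e1 : ∑ y ∈ F, |(y j : ℝ)| ^ 2 * ‖uu z lam (VL h ω) (pr (2 * h + 1) y)‖ ^ 2 =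
        ∑ t ∈ F.image (pr (2 * h + 1)), wt j t ^ 2 * ‖uu z lam (VL h ω) t‖ ^ 2 := by
      rw [Finset.sum_image hinj]
      refine Finset.sum_congr rfl fun y hy => ?_
      have e2 : wt j (pr (2 * h + 1) y) = |(y j : ℝ)| := by
        have e3 := congrFun (lift_pr y (hh y hy)) j
        unfold wt
        have e4 : (pr (2 * h + 1) y j).valMinAbs = y j := e3
        rw [e4]
        rw [Nat.cast_natAbs, Int.cast_abs]
      rw [e2]
    rw [e1]
    exact Finset.sum_le_univ_sum_of_nonneg fun _ => by positivity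
  refine le_trans (Finset.sum_le_sum fun y _ => ?_) h2
  refine mul_le_mul_of_nonneg_right ?_ (by positivity)
  rcases eq_or_ne (y j) 0 with h3 | h3
  · rw [h3]
    simp
  · have h4 : (1 : ℝ) ≤ |(y j : ℝ)| := by
      have h5 : (1 : ℤ) ≤ |y j| := Int.one_le_abs h3
      have h6 : ((1 : ℤ) : ℝ) ≤ ((|y j| : ℤ) : ℝ) := by exact_mod_cast h5
      rw [Int.cast_abs, Int.cast_one] at h6
      exact h6
    nlinarith

theorem exp_lip (a c : ℝ) : ‖Complex.exp ((a : ℂ) * Complex.I) - Complex.exp ((c : ℂ) * Complex.I)‖ ≤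
    |a - c| := by
  have h1 : Complex.exp ((a : ℂ) * Complex.I) - Complex.exp ((c : ℂ) * Complex.I) =
      Complex.exp ((c : ℂ) * Complex.I) * (Complex.exp (((a - c : ℝ) : ℂ) * Complex.I) - 1) := by
    rw [mul_sub, ← Complex.exp_add, mul_one]
    congr 2
    push_cast
    ring
  rw [h1, norm_mul, Complex.norm_exp_ofReal_mul_I, one_mul, mul_comm]
  have := Real.norm_exp_I_mul_ofReal_sub_one_le (x := a - c)
  rw [Real.norm_eq_abs] at this
  exact this

/-- continuity in the momentum -/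
theorem Ph_theta (lam : ℝ) (z : ℂ) (hz : 0 < z.im) (θ θ' : Fin d → ℝ) (ω : Zd d → ℝ) (ρ : ℝ)
    (hρ : ∀ j, |θ j - θ' j| ≤ ρ) :
    ‖Ph lam z θ ω - Ph lam z θ' ω‖ ≤ 4 * d * ρ / z.im ^ 3 := by
  have hG := Gc_isG lam z hz ω
  have hs : ∀ θ : Fin d → ℝ, Summable fun x => ex θ x * ((‖Gc lam z ω x‖ ^ 2 : ℝ) : ℂ) := by
    intro θ
    refine Summable.of_norm ?_
    refine hG.sq.congr fun x => ?_
    rw [norm_mul, ex_norm, one_mul, Complex.norm_real, Real.norm_eq_abs,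
      abs_of_nonneg (by positivity)]
  unfold Ph
  rw [← mul_sub, norm_mul, Complex.norm_real, Real.norm_eq_abs, abs_of_pos hz,
    ← (hs θ).tsum_sub (hs θ')]
  have h1 : ∀ F : Finset (Zd d), ∑ x ∈ F, ‖ex θ x * ((‖Gc lam z ω x‖ ^ 2 : ℝ) : ℂ) -
      ex θ' x * ((‖Gc lam z ω x‖ ^ 2 : ℝ) : ℂ)‖ ≤ 4 * d * ρ / z.im ^ 4 := by
    intro F
    have h2 : ∀ x, ‖ex θ x * ((‖Gc lam z ω x‖ ^ 2 : ℝ) : ℂ) -
        ex θ' x * ((‖Gc lam z ω x‖ ^ 2 : ℝ) : ℂ)‖ ≤
        ∑ j, ρ * (|(x j : ℝ)| * ‖Gc lam z ω x‖ ^ 2) := by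
      intro x
      rw [← sub_mul, norm_mul, Complex.norm_real, Real.norm_eq_abs, abs_of_nonneg (by positivity)]
      have h3 : ‖ex θ x - ex θ' x‖ ≤ ∑ j, ρ * |(x j : ℝ)| := by
        unfold ex
        refine (exp_lip _ _).trans ?_
        rw [← Finset.sum_sub_distrib]
        refine (Finset.abs_sum_le_sum_abs _ _).trans (Finset.sum_le_sum fun j _ => ?_)
        rw [← sub_mul, abs_mul]
        exact mul_le_mul_of_nonneg_right (hρ j) (abs_nonneg _)
      calc ‖ex θ x - ex θ' x‖ * ‖Gc lam z ω x‖ ^ 2 ≤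
            (∑ j, ρ * |(x j : ℝ)|) * ‖Gc lam z ω x‖ ^ 2 :=
            mul_le_mul_of_nonneg_right h3 (by positivity)
        _ = _ := by
            rw [Finset.sum_mul]
            exact Finset.sum_congr rfl fun j _ => by ring
    refine (Finset.sum_le_sum fun x _ => h2 x).trans ?_
    rw [Finset.sum_comm]
    rcases Nat.eq_zero_or_pos d with hd | hd
    · subst hd
      simp
    · have hρ0 : 0 ≤ ρ := (abs_nonneg _).trans (hρ ⟨0, hd⟩)
      calc ∑ j, ∑ x ∈ F, ρ * (|(x j : ℝ)| * ‖Gc lam z ω x‖ ^ 2) ≤ ∑ _j : Fin d, ρ * (4 / z.im ^ 4) := by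
            refine Finset.sum_le_sum fun j _ => ?_
            rw [← Finset.mul_sum]
            exact mul_le_mul_of_nonneg_left (mom_lat lam z hz ω j F) hρ0
        _ = _ := by
            rw [Finset.sum_const, Finset.card_univ, Fintype.card_fin, nsmul_eq_mul]
            ring
  have h3 : ‖∑' x, (ex θ x * ((‖Gc lam z ω x‖ ^ 2 : ℝ) : ℂ) -
      ex θ' x * ((‖Gc lam z ω x‖ ^ 2 : ℝ) : ℂ))‖ ≤ 4 * d * ρ / z.im ^ 4 := by
    have hsn := ((hs θ).sub (hs θ')).norm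
    exact (norm_tsum_le_tsum_norm hsn).trans (hsn.tsum_le_of_sum_le h1)
  calc z.im * ‖∑' x, (ex θ x * ((‖Gc lam z ω x‖ ^ 2 : ℝ) : ℂ) -
      ex θ' x * ((‖Gc lam z ω x‖ ^ 2 : ℝ) : ℂ))‖ ≤ z.im * (4 * d * ρ / z.im ^ 4) :=
        mul_le_mul_of_nonneg_left h3 hz.le
    _ = _ := by
        have : z.im ≠ 0 := hz.ne'
        field_simp

/-- continuity in the energy on the torus -/
theorem z_tor {L : ℕ} [NeZero L] (z z' : ℂ) (hz : 0 < z.im) (hz' : 0 < z'.im) (σ : ℝ)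
    (V : T d L → ℝ) : ∑ t, ‖uu z σ V t - uu z' σ V t‖ ^ 2 ≤ ‖z - z'‖ ^ 2 / (z.im ^ 2 * z'.im ^ 2) := by
  have h1 := Hz_coercive hz (σ := σ) V (fun t => uu z σ V t - uu z' σ V t)
  have h2 : ∀ t, Hz z σ V (fun t => uu z σ V t - uu z' σ V t) t = (z - z') * uu z' σ V t := by
    intro t
    have h3 : Hz z σ V (uu z' σ V) t = Hz z' σ V (uu z' σ V) t - (z - z') * uu z' σ V t := by
      unfold Hz
      ring
    rw [Hz_sub, h3, uu_eq z hz, uu_eq z' hz']
    ring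
  simp only [h2, norm_mul, mul_pow] at h1
  rw [← Finset.mul_sum] at h1
  have h3 := uu_norm z' hz' σ V
  rw [le_div_iff₀ (by positivity)]
  have h4 : ‖z - z'‖ ^ 2 * ∑ t, ‖uu z' σ V t‖ ^ 2 ≤ ‖z - z'‖ ^ 2 * (1 / z'.im ^ 2) :=
    mul_le_mul_of_nonneg_left h3 (by positivity)
  calc (∑ t, ‖uu z σ V t - uu z' σ V t‖ ^ 2) * (z.im ^ 2 * z'.im ^ 2) =
        (z.im ^ 2 * ∑ t, ‖uu z σ V t - uu z' σ V t‖ ^ 2) * z'.im ^ 2 := by ring
    _ ≤ (‖z - z'‖ ^ 2 * (1 / z'.im ^ 2)) * z'.im ^ 2 :=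
        mul_le_mul_of_nonneg_right (h1.trans h4) (by positivity)
    _ = _ := by field_simp

/-- continuity in the energy -/
theorem Ph_z (lam : ℝ) (z z' : ℂ) (η : ℝ) (hη : 0 < η) (hz : η ≤ z.im) (hz' : η ≤ z'.im)
    (hz1 : z'.im ≤ 1) (hη1 : η ≤ 1) (θ : Fin d → ℝ) (ω : Zd d → ℝ) :
    ‖Ph lam z θ ω - Ph lam z' θ ω‖ ≤ 4 * ‖z - z'‖ / η ^ 3 := by
  have hz0 : 0 < z.im := by linarith
  have hz0' : 0 < z'.im := by linarith
  have hG := Gc_isG lam z hz0 ω
  have hG' := Gc_isG lam z' hz0' ω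
  set A := ∑' x, ex θ x * ((‖Gc lam z ω x‖ ^ 2 : ℝ) : ℂ) with hA
  set A' := ∑' x, ex θ x * ((‖Gc lam z' ω x‖ ^ 2 : ℝ) : ℂ) with hA'
  have h1 : ‖A - A'‖ ≤ 2 * ‖z - z'‖ / η ^ 3 := by
    have l1 := det_lim lam ω z hz0 _ hG θ
    have l2 := det_lim lam ω z' hz0' _ hG' θ
    refine le_of_tendsto (l1.sub l2).norm (Eventually.of_forall fun h => ?_)
    have h2 := sq_diff (fun x => e (pm (2 * h + 1) θ) x) (uu z lam (VL h ω))
      (uu z' lam (VL h ω)) (fun x => (e_norm _ _).le)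
    have h3 := z_tor z z' hz0 hz0' lam (VL h ω)
    have h4 := uu_norm z hz0 lam (VL h ω)
    have h5 := uu_norm z' hz0' lam (VL h ω)
    have e1 : 1 / z.im ^ 2 ≤ 1 / η ^ 2 := one_div_le_one_div_of_le (by positivity)
      (pow_le_pow_left₀ hη.le hz 2)
    have e2 : 1 / z'.im ^ 2 ≤ 1 / η ^ 2 := one_div_le_one_div_of_le (by positivity)
      (pow_le_pow_left₀ hη.le hz' 2)
    have e3 : ‖z - z'‖ ^ 2 / (z.im ^ 2 * z'.im ^ 2) ≤ ‖z - z'‖ ^ 2 / (η ^ 2 * η ^ 2) := by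
      gcongr
    have h6 : ‖∑ x : T d (2 * h + 1), e (pm (2 * h + 1) θ) x * ((‖uu z lam (VL h ω) x‖ ^ 2 : ℝ) : ℂ) -
        ∑ x : T d (2 * h + 1), e (pm (2 * h + 1) θ) x *
          ((‖uu z' lam (VL h ω) x‖ ^ 2 : ℝ) : ℂ)‖ ^ 2 ≤ (2 * ‖z - z'‖ / η ^ 3) ^ 2 := by
      refine h2.trans ?_
      calc _ ≤ ‖z - z'‖ ^ 2 / (η ^ 2 * η ^ 2) * (2 * (1 / η ^ 2) + 2 * (1 / η ^ 2)) := by
            refine mul_le_mul (h3.trans e3) ?_ (by positivity) (by positivity)
            linarith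
        _ = _ := by
            field_simp
            ring
    exact le_of_sq_le_sq h6 (by positivity)
  have h2 : ‖A‖ ≤ 2 / η ^ 2 := by
    have e1 : ∀ x, ‖ex θ x * ((‖Gc lam z ω x‖ ^ 2 : ℝ) : ℂ)‖ = ‖Gc lam z ω x‖ ^ 2 := by
      intro x
      rw [norm_mul, ex_norm, one_mul, Complex.norm_real, Real.norm_eq_abs,
        abs_of_nonneg (by positivity)]
    have e2 : ‖A‖ ≤ ∑' x, ‖Gc lam z ω x‖ ^ 2 := by
      refine (norm_tsum_le_tsum_norm ?_).trans (le_of_eq (tsum_congr e1))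
      simp only [e1]
      exact hG.sq
    refine e2.trans ((isG_norm lam ω z hz0 _ hG).trans ?_)
    exact div_le_div_of_nonneg_left (by norm_num) (by positivity) (pow_le_pow_left₀ hη.le hz 2)
  have h3 : Ph lam z θ ω - Ph lam z' θ ω = (((z.im - z'.im : ℝ) : ℂ)) * A +
      (z'.im : ℂ) * (A - A') := by
    unfold Ph
    rw [← hA, ← hA']
    push_cast
    ring
  rw [h3]
  refine (norm_add_le _ _).trans ?_
  rw [norm_mul, norm_mul, Complex.norm_real, Complex.norm_real, Real.norm_eq_abs,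
    Real.norm_eq_abs, abs_of_pos hz0']
  have h4 : |z.im - z'.im| ≤ ‖z - z'‖ := by
    rw [← Complex.sub_im]
    exact Complex.abs_im_le_norm _
  have h5 : 2 / η ^ 2 ≤ 2 / η ^ 3 := by
    apply div_le_div_of_nonneg_left (by norm_num) (by positivity)
    exact pow_le_pow_of_le_one hη.le hη1 (by norm_num)
  calc |z.im - z'.im| * ‖A‖ + z'.im * ‖A - A'‖ ≤
        ‖z - z'‖ * (2 / η ^ 3) + 1 * (2 * ‖z - z'‖ / η ^ 3) := by
        refine add_le_add (mul_le_mul h4 (h2.trans h5) (norm_nonneg _) (norm_nonneg _))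
          (mul_le_mul hz1 h1 (norm_nonneg _) zero_le_one)
    _ = _ := by ring

end Pool.Agent.Zk11.QQ
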