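import Pool.Agent.Zk11.QQ.Dv
import Pool.Agent.Zk11.QQ.Cn

/-! Concentration of averages of the squared resolvent on the torus. -/

set_option autoImplicit false
set_option linter.unusedSectionVars false

open scoped BigOperators Topology
open MeasureTheory Filter

namespace Pool.Agent.Zk11.QQ

open Pool.Agent.Zk11.QD
open Pool.Agent.W788.MFP.Four (T)

variable {d L : ℕ} [NeZero L] {z : ℂ} {σ : ℝ}

theorem ratio_diff (F F' : ℂ) (S S' : ℝ) (hS : 0 ≤ S) (hS' : 0 ≤ S') (hF' : ‖F'‖ ≤ S') :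
    ‖F / ((1 + S : ℝ) : ℂ) - F' / ((1 + S' : ℝ) : ℂ)‖ ^ 2 ≤
      2 * (‖F - F'‖ ^ 2 + (S - S') ^ 2) / (1 + S) ^ 2 := by
  have h1 : (0 : ℝ) < 1 + S := by linarith
  have h1' : (0 : ℝ) < 1 + S' := by linarith
  have h1c : ((1 + S : ℝ) : ℂ) ≠ 0 := by exact_mod_cast h1.ne'
  have h1c' : ((1 + S' : ℝ) : ℂ) ≠ 0 := by exact_mod_cast h1'.ne'
  have e1 : F / ((1 + S : ℝ) : ℂ) - F' / ((1 + S' : ℝ) : ℂ) =
      (F - F') / ((1 + S : ℝ) : ℂ) + F' / ((1 + S' : ℝ) : ℂ) *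
        (((S' - S : ℝ) : ℂ) / ((1 + S : ℝ) : ℂ)) := by
    field_simp
    push_cast
    ring
  have h2 : ‖F / ((1 + S : ℝ) : ℂ) - F' / ((1 + S' : ℝ) : ℂ)‖ ≤
      (‖F - F'‖ + |S - S'|) / (1 + S) := by
    rw [e1]
    refine (norm_add_le _ _).trans ?_
    rw [norm_mul, norm_div, norm_div, norm_div, Complex.norm_real, Complex.norm_real,
      Complex.norm_real, Real.norm_eq_abs, Real.norm_eq_abs, Real.norm_eq_abs, abs_of_pos h1,
      abs_of_pos h1', add_div]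
    refine add_le_add le_rfl ?_
    have h3 : ‖F'‖ / (1 + S') ≤ 1 := by
      rw [div_le_one h1']
      linarith
    rw [abs_sub_comm S S']
    calc ‖F'‖ / (1 + S') * (|S' - S| / (1 + S)) ≤ 1 * (|S' - S| / (1 + S)) :=
          mul_le_mul_of_nonneg_right h3 (by positivity)
      _ = _ := one_mul _
  refine (pow_le_pow_left₀ (norm_nonneg _) h2 2).trans ?_
  rw [div_pow]
  refine div_le_div_of_nonneg_right ?_ (by positivity)
  have h4 : (S - S') ^ 2 = |S - S'| ^ 2 := (sq_abs _).symm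
  rw [h4]
  nlinarith [sq_nonneg (‖F - F'‖ - |S - S'|)]

theorem FB_cont (hz : 0 < z.im) (χ c : T d L → ℂ) (B : Finset (T d L)) :
    Continuous (FB z σ χ c B) := by
  unfold FB
  refine continuous_const.mul (continuous_finsetSum _ fun y _ => ?_)
  refine continuous_const.mul (continuous_const.mul (continuous_finsetSum _ fun x _ => ?_))
  exact continuous_const.mul (Complex.continuous_ofReal.comp ((gg_cont x y hz).norm.pow 2))

theorem SB_cont (hz : 0 < z.im) (B : Finset (T d L)) : Continuous (SB z σ B) := by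
  unfold SB
  refine continuous_const.mul (continuous_finsetSum _ fun y _ => ?_)
  exact Complex.continuous_im.comp (gg_cont y y hz)

theorem SB_le (hz : 0 < z.im) (B : Finset (T d L)) (hB : B.Nonempty) (V : T d L → ℝ) :
    SB z σ B V ≤ 1 / z.im := by
  have hN : (0 : ℝ) < B.card := by exact_mod_cast hB.card_pos
  unfold SB
  calc (B.card : ℝ)⁻¹ * ∑ y ∈ B, (gg z σ V y y).im ≤ (B.card : ℝ)⁻¹ * ∑ _y ∈ B, 1 / z.im :=
        mul_le_mul_of_nonneg_left (Finset.sum_le_sum fun y _ => ggi_le hz V y) (by positivity)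
    _ = _ := by
        rw [Finset.sum_const, nsmul_eq_mul]
        field_simp

/-- the normalized average -/
noncomputable def XB (z : ℂ) (σ : ℝ) (χ c : T d L → ℂ) (B : Finset (T d L)) (V : T d L → ℝ) : ℂ :=
  FB z σ χ c B V / ((1 + SB z σ B V : ℝ) : ℂ)

theorem XB_cont (hz : 0 < z.im) (χ c : T d L → ℂ) (B : Finset (T d L)) :
    Continuous (XB z σ χ c B) := by
  unfold XB
  refine (FB_cont hz χ c B).div
    (Complex.continuous_ofReal.comp (continuous_const.add (SB_cont hz B))) fun V => ?_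
  have := SB_nonneg (σ := σ) hz B V
  have h1 : (0 : ℝ) < 1 + SB z σ B V := by linarith
  exact_mod_cast h1.ne'

theorem XB_le (hz : 0 < z.im) (χ c : T d L → ℂ) (hχ : ∀ x, ‖χ x‖ ≤ 1) (hc : ∀ x, ‖c x‖ ≤ 1)
    (B : Finset (T d L)) (V : T d L → ℝ) : ‖XB z σ χ c B V‖ ≤ 1 := by
  have h0 := SB_nonneg (σ := σ) hz B V
  have h1 : (0 : ℝ) < 1 + SB z σ B V := by linarith
  unfold XB
  rw [norm_div, Complex.norm_real, Real.norm_eq_abs, abs_of_pos h1, div_le_one h1]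
  have := FB_le (σ := σ) hz χ c hχ hc B V
  linarith

theorem XB_diff (hz : 0 < z.im) (χ c : T d L → ℂ) (hχ : ∀ x, ‖χ x‖ ≤ 1) (hc : ∀ x, ‖c x‖ ≤ 1)
    (B : Finset (T d L)) (hB : B.Nonempty) (V : T d L → ℝ) (β : ℝ) (hβ : ∀ v, |σ * V v| ≤ β) :
    ∑ v, ‖XB z σ χ c B V - XB z σ χ c B (Function.update V v 0)‖ ^ 2 ≤
      16 * β ^ 2 / (z.im ^ 3 * B.card) := by
  have hN : (0 : ℝ) < B.card := by exact_mod_cast hB.card_pos
  have h0 := SB_nonneg (σ := σ) hz B V
  set S := SB z σ B V with hS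
  have h1 : (0 : ℝ) < 1 + S := by linarith
  have hone : ∀ v, ‖XB z σ χ c B V - XB z σ χ c B (Function.update V v 0)‖ ^ 2 ≤
      2 / (1 + S) ^ 2 * (‖FB z σ χ c B V - FB z σ χ c B (Function.update V v 0)‖ ^ 2 +
        (S - SB z σ B (Function.update V v 0)) ^ 2) := by
    intro v
    unfold XB
    refine (ratio_diff _ _ _ _ h0 (SB_nonneg hz B _) (FB_le hz χ c hχ hc B _)).trans
      (le_of_eq ?_)
    ring
  have h2 := D_bound (σ := σ) hz χ c hχ hc B hB V β hβ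
  have h3 := D_bound (σ := σ) hz (fun _ => 1) (fun _ => 1) (fun _ => by simp) (fun _ => by simp)
    B hB V β hβ
  simp only [← SB_FB hz B, ← Complex.ofReal_sub, Complex.norm_real, Real.norm_eq_abs, sq_abs] at h3
  rw [← hS] at h2 h3
  calc ∑ v, ‖XB z σ χ c B V - XB z σ χ c B (Function.update V v 0)‖ ^ 2 ≤
        ∑ v, 2 / (1 + S) ^ 2 * (‖FB z σ χ c B V - FB z σ χ c B (Function.update V v 0)‖ ^ 2 +
        (S - SB z σ B (Function.update V v 0)) ^ 2) := Finset.sum_le_sum fun v _ => hone v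
    _ = 2 / (1 + S) ^ 2 * (∑ v, ‖FB z σ χ c B V - FB z σ χ c B (Function.update V v 0)‖ ^ 2 +
        ∑ v, (S - SB z σ B (Function.update V v 0)) ^ 2) := by
        rw [← Finset.mul_sum, Finset.sum_add_distrib]
    _ ≤ 2 / (1 + S) ^ 2 * (16 * β ^ 2 / (z.im ^ 3 * B.card) * S +
        16 * β ^ 2 / (z.im ^ 3 * B.card) * S) :=
        mul_le_mul_of_nonneg_left (add_le_add h2 h3) (by positivity)
    _ = 16 * β ^ 2 / (z.im ^ 3 * B.card) * (4 * S / (1 + S) ^ 2) := by ring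
    _ ≤ 16 * β ^ 2 / (z.im ^ 3 * B.card) * 1 := by
        refine mul_le_mul_of_nonneg_left ?_ (by positivity)
        rw [div_le_one (by positivity)]
        nlinarith [sq_nonneg (1 - S)]
    _ = _ := mul_one _

theorem ae_pi (μ : Measure ℝ) [IsProbabilityMeasure μ] (b : ℝ) (hb : ∀ᵐ s ∂μ, |s| ≤ b) :
    ∀ᵐ V ∂(PM (T d L) μ), ∀ v, |V v| ≤ b :=
  ae_all_iff.2 fun v =>
    (measurePreserving_eval (fun _ : T d L => μ) v).quasiMeasurePreserving.ae hb

theorem alg (X W : ℂ) (q m3 m0 s : ℝ) (hm0 : 0 < m0) (hm1 : m0 ≤ 1) (hs0 : 0 < s)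
    (hs : s ≤ m0 / 2) (hm3 : m0 ≤ m3) (hqm : |q - m3| < s) (hXW : ‖X - W‖ ≤ 2 * s)
    (hW : ‖W‖ ≤ 1) : ‖X / (q : ℂ) - W / (m3 : ℂ)‖ ≤ 6 * s / m0 ^ 2 := by
  have hm3p : 0 < m3 := lt_of_lt_of_le hm0 hm3
  have hq1 : m0 / 2 ≤ q := by
    have := (abs_lt.1 hqm).1
    linarith
  have hq0 : 0 < q := by linarith
  have hqc : ((q : ℝ) : ℂ) ≠ 0 := by exact_mod_cast hq0.ne'
  have hmc : ((m3 : ℝ) : ℂ) ≠ 0 := by exact_mod_cast hm3p.ne'
  have e1 : X / ((q : ℝ) : ℂ) - W / ((m3 : ℝ) : ℂ) =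
      (X - W) / ((q : ℝ) : ℂ) + W * (((m3 - q : ℝ) : ℂ) / (((q : ℝ) : ℂ) * ((m3 : ℝ) : ℂ))) := by
    field_simp
    push_cast
    ring
  rw [e1]
  have h4 : ‖(X - W) / ((q : ℝ) : ℂ)‖ ≤ 4 * s / m0 := by
    rw [norm_div, Complex.norm_real, Real.norm_eq_abs, abs_of_pos hq0]
    calc ‖X - W‖ / q ≤ 2 * s / (m0 / 2) := div_le_div₀ (by positivity) hXW (by positivity) hq1
      _ = _ := by field_simp; ring
  have h5 : ‖W * (((m3 - q : ℝ) : ℂ) / (((q : ℝ) : ℂ) * ((m3 : ℝ) : ℂ)))‖ ≤ 2 * s / m0 ^ 2 := by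
    rw [norm_mul, norm_div, norm_mul, Complex.norm_real, Complex.norm_real, Complex.norm_real,
      Real.norm_eq_abs, Real.norm_eq_abs, Real.norm_eq_abs, abs_of_pos hq0, abs_of_pos hm3p,
      abs_sub_comm]
    have h6 : |q - m3| / (q * m3) ≤ s / (m0 / 2 * m0) :=
      div_le_div₀ hs0.le hqm.le (by positivity) (mul_le_mul hq1 hm3 hm0.le hq0.le)
    calc ‖W‖ * (|q - m3| / (q * m3)) ≤ 1 * (s / (m0 / 2 * m0)) :=
          mul_le_mul hW h6 (by positivity) zero_le_one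
      _ = _ := by field_simp
  have h7 : 4 * s / m0 ≤ 4 * s / m0 ^ 2 := by
    apply div_le_div_of_nonneg_left (by positivity) (by positivity)
    nlinarith
  calc _ ≤ ‖(X - W) / ((q : ℝ) : ℂ)‖ +
        ‖W * (((m3 - q : ℝ) : ℂ) / (((q : ℝ) : ℂ) * ((m3 : ℝ) : ℂ)))‖ := norm_add_le _ _
    _ ≤ 4 * s / m0 + 2 * s / m0 ^ 2 := add_le_add h4 h5
    _ ≤ 4 * s / m0 ^ 2 + 2 * s / m0 ^ 2 := add_le_add h7 le_rfl
    _ = _ := by ring

theorem fin_prob {Ω : Type} [MeasurableSpace Ω] (μL : Measure Ω) [IsProbabilityMeasure μL]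
    (F : Ω → ℂ) (hi : Integrable F μL) (Fs : ℂ) (K p r : ℝ) (hK : 0 ≤ K) (hFs : ‖Fs‖ ≤ K)
    (hF : ∀ V, ‖F V‖ ≤ K) (Bad : Set Ω) (hBm : MeasurableSet Bad) (hBp : μL.real Bad ≤ p)
    (hr : 0 ≤ r) (hgood : ∀ V, V ∉ Bad → ‖F V - Fs‖ ≤ r) :
    μL.real {V | 2 * r + 2 * K * p < ‖F V - ∫ U, F U ∂μL‖} ≤ p := by
  have hmean : ‖Fs - ∫ U, F U ∂μL‖ ≤ r + 2 * K * p := by
    have e1 : Fs - ∫ U, F U ∂μL = ∫ U, (Fs - F U) ∂μL := by
      rw [integral_sub (integrable_const _) hi]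
      simp
    rw [e1]
    have h1 : ∀ V, ‖Fs - F V‖ ≤ r + Bad.indicator (fun _ => 2 * K) V := by
      intro V
      by_cases hV : V ∈ Bad
      · rw [Set.indicator_of_mem hV]
        have h2 := hF V
        have h3 := norm_sub_le Fs (F V)
        linarith
      · rw [Set.indicator_of_notMem hV, add_zero, norm_sub_rev]
        exact hgood V hV
    have hind : Integrable (Bad.indicator fun _ : Ω => 2 * K) μL :=
      (integrable_const _).indicator hBm
    refine (norm_integral_le_integral_norm _).trans ?_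
    refine (integral_mono ((integrable_const Fs).sub hi).norm
      ((integrable_const r).add hind) h1).trans ?_
    have e2 : ∫ V, (r + Bad.indicator (fun _ => 2 * K) V) ∂μL = r + μL.real Bad * (2 * K) := by
      rw [integral_add (integrable_const _) hind, integral_indicator hBm]
      simp
    refine (le_of_eq e2).trans ?_
    refine add_le_add le_rfl ?_
    calc μL.real Bad * (2 * K) ≤ p * (2 * K) :=
          mul_le_mul_of_nonneg_right hBp (by positivity)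
      _ = _ := by ring
  refine (measureReal_mono (μ := μL) ?_).trans hBp
  intro V hV
  by_contra hV2
  have h1 := hgood V hV2
  have h2 : 2 * r + 2 * K * p < ‖F V - ∫ U, F U ∂μL‖ := hV
  have h3 := norm_sub_le_norm_sub_add_norm_sub (F V) Fs (∫ U, F U ∂μL)
  linarith

theorem jen {Ω : Type} [MeasurableSpace Ω] (μL : Measure Ω) [IsProbabilityMeasure μL]
    (S : Ω → ℝ) (hS0 : ∀ V, 0 ≤ S V) (hiS : Integrable S μL)
    (hi : Integrable (fun V => 1 / (1 + S V)) μL) (m0 : ℝ) (hm0 : 0 < m0)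
    (hS : ∫ V, S V ∂μL ≤ 1 / m0 - 1) : m0 ≤ ∫ V, 1 / (1 + S V) ∂μL := by
  set cS := ∫ V, S V ∂μL with hcS
  have hcS0 : 0 ≤ cS := integral_nonneg hS0
  have h1 : ∀ V, 2 / (1 + cS) - (1 + S V) / (1 + cS) ^ 2 ≤ 1 / (1 + S V) := by
    intro V
    have h0 := hS0 V
    have h1 : (0 : ℝ) < 1 + S V := by linarith
    have h2 : (0 : ℝ) < 1 + cS := by linarith
    have h3 : 2 / (1 + cS) ≤ (1 + S V) / (1 + cS) ^ 2 + 1 / (1 + S V) := by
      rw [div_add_div _ _ (by positivity) (by positivity), div_le_div_iff₀ h2 (by positivity)]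
      nlinarith [mul_nonneg h2.le (sq_nonneg ((1 + S V) - (1 + cS)))]
    linarith
  have hi5 : Integrable (fun V => (1 + S V) / (1 + cS) ^ 2) μL :=
    ((integrable_const _).add hiS).div_const _
  have hi4 : Integrable (fun V => 2 / (1 + cS) - (1 + S V) / (1 + cS) ^ 2) μL :=
    (integrable_const _).sub hi5
  have h2 := integral_mono hi4 hi h1
  have h3 : ∫ V, (2 / (1 + cS) - (1 + S V) / (1 + cS) ^ 2) ∂μL = 1 / (1 + cS) := by
    have h4 : ∫ V, (1 + S V) / (1 + cS) ^ 2 ∂μL = (1 + cS) / (1 + cS) ^ 2 := by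
      rw [integral_div, integral_add (integrable_const _) hiS]
      simp only [integral_const, probReal_univ, one_smul, ← hcS]
    rw [integral_sub (integrable_const _) hi5, h4]
    have h2 : (1 : ℝ) + cS ≠ 0 := by linarith
    simp only [integral_const, probReal_univ, one_smul]
    field_simp
    ring
  rw [h3] at h2
  have h4 : m0 ≤ 1 / (1 + cS) := by
    rw [le_div_iff₀ (by linarith)]
    have h5 : 1 + cS ≤ 1 / m0 := by linarith
    calc m0 * (1 + cS) ≤ m0 * (1 / m0) := mul_le_mul_of_nonneg_left h5 hm0.le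
      _ = 1 := by field_simp
  linarith

theorem XB_one (hz : 0 < z.im) (B : Finset (T d L)) (V : T d L → ℝ) :
    (XB z σ (fun _ => 1) (fun _ => 1) B V).re = 1 - 1 / (1 + SB z σ B V) := by
  have h0 := SB_nonneg (σ := σ) hz B V
  have h1 : (1 : ℝ) + SB z σ B V ≠ 0 := by linarith
  unfold XB
  rw [← SB_FB hz B, ← Complex.ofReal_div, Complex.ofReal_re]
  field_simp
  ring

theorem XB_mul (hz : 0 < z.im) (χ c : T d L → ℂ) (B : Finset (T d L)) (V : T d L → ℝ) :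
    FB z σ χ c B V = XB z σ χ c B V / ((1 / (1 + SB z σ B V) : ℝ) : ℂ) := by
  have h0 := SB_nonneg (σ := σ) hz B V
  have h1 : (0 : ℝ) < 1 + SB z σ B V := by linarith
  have h2 : ((1 + SB z σ B V : ℝ) : ℂ) ≠ 0 := by exact_mod_cast h1.ne'
  unfold XB
  push_cast
  push_cast at h2
  field_simp

theorem ae_diff (hz : 0 < z.im) (μ : Measure ℝ) [IsProbabilityMeasure μ]
    (b : ℝ) (hb : ∀ᵐ s ∂μ, |s| ≤ b) (hσ : 0 < σ)
    (χ c : T d L → ℂ) (hχ : ∀ x, ‖χ x‖ ≤ 1) (hc : ∀ x, ‖c x‖ ≤ 1)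
    (B : Finset (T d L)) (hB : B.Nonempty) (a : ℝ)
    (ha : 16 * (σ * b) ^ 2 / (z.im ^ 3 * B.card) ≤ a) :
    ∀ᵐ V ∂(PM (T d L) μ),
      ∑ v, ‖XB z σ χ c B V - XB z σ χ c B (Function.update V v 0)‖ ^ 2 ≤ a := by
  filter_upwards [ae_pi μ b hb] with V hV
  exact (XB_diff hz χ c hχ hc B hB V (σ * b) (fun v => by
    rw [abs_mul, abs_of_pos hσ]
    exact mul_le_mul_of_nonneg_left (hV v) hσ.le)).trans ha

theorem conc_re (hz : 0 < z.im) (μ : Measure ℝ) [IsProbabilityMeasure μ]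
    (b : ℝ) (hb : ∀ᵐ s ∂μ, |s| ≤ b) (hσ : 0 < σ)
    (χ c : T d L → ℂ) (hχ : ∀ x, ‖χ x‖ ≤ 1) (hc : ∀ x, ‖c x‖ ≤ 1)
    (B : Finset (T d L)) (hB : B.Nonempty) (a : ℝ) (ha0 : 0 < a)
    (ha : 16 * (σ * b) ^ 2 / (z.im ^ 3 * B.card) ≤ a) (s : ℝ) :
    (PM (T d L) μ).real {V | s ≤ |(XB z σ χ c B V).re -
      ∫ U, (XB z σ χ c B U).re ∂(PM (T d L) μ)|} ≤ 10 * Real.exp (-(s / (2 * Real.sqrt a))) := by
  refine conc μ (fun V => (XB z σ χ c B V).re) (Complex.continuous_re.comp (XB_cont hz χ c B))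
    (fun V => (Complex.abs_re_le_norm _).trans (XB_le hz χ c hχ hc B V)) a ha0 ?_ s
  filter_upwards [ae_diff hz μ b hb hσ χ c hχ hc B hB a ha] with V hV
  refine (Finset.sum_le_sum fun v _ => ?_).trans hV
  rw [← Complex.sub_re, ← sq_abs]
  exact pow_le_pow_left₀ (abs_nonneg _) (Complex.abs_re_le_norm _) 2

theorem conc_im (hz : 0 < z.im) (μ : Measure ℝ) [IsProbabilityMeasure μ]
    (b : ℝ) (hb : ∀ᵐ s ∂μ, |s| ≤ b) (hσ : 0 < σ)
    (χ c : T d L → ℂ) (hχ : ∀ x, ‖χ x‖ ≤ 1) (hc : ∀ x, ‖c x‖ ≤ 1)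
    (B : Finset (T d L)) (hB : B.Nonempty) (a : ℝ) (ha0 : 0 < a)
    (ha : 16 * (σ * b) ^ 2 / (z.im ^ 3 * B.card) ≤ a) (s : ℝ) :
    (PM (T d L) μ).real {V | s ≤ |(XB z σ χ c B V).im -
      ∫ U, (XB z σ χ c B U).im ∂(PM (T d L) μ)|} ≤ 10 * Real.exp (-(s / (2 * Real.sqrt a))) := by
  refine conc μ (fun V => (XB z σ χ c B V).im) (Complex.continuous_im.comp (XB_cont hz χ c B))
    (fun V => (Complex.abs_im_le_norm _).trans (XB_le hz χ c hχ hc B V)) a ha0 ?_ s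
  filter_upwards [ae_diff hz μ b hb hσ χ c hχ hc B hB a ha] with V hV
  refine (Finset.sum_le_sum fun v _ => ?_).trans hV
  rw [← Complex.sub_im, ← sq_abs]
  exact pow_le_pow_left₀ (abs_nonneg _) (Complex.abs_im_le_norm _) 2

theorem meas_dev {Ω : Type} [TopologicalSpace Ω] [MeasurableSpace Ω] [BorelSpace Ω]
    (X : Ω → ℝ) (hX : Continuous X) (s c : ℝ) : MeasurableSet {V | s ≤ |X V - c|} :=
  (isClosed_le continuous_const (hX.sub continuous_const).abs).measurableSet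

/-- **concentration on the torus** -/
theorem tor_conc (hz : 0 < z.im) (hz1 : z.im ≤ 1) (μ : Measure ℝ) [IsProbabilityMeasure μ]
    (b : ℝ) (hb0 : 0 < b) (hb : ∀ᵐ s ∂μ, |s| ≤ b) (hσ : 0 < σ)
    (χ c : T d L → ℂ) (hχ : ∀ x, ‖χ x‖ ≤ 1) (hc : ∀ x, ‖c x‖ ≤ 1)
    (B : Finset (T d L)) (hB : B.Nonempty) (a : ℝ)
    (ha : 16 * (σ * b) ^ 2 / (z.im ^ 3 * B.card) ≤ a) (m0 s : ℝ) (hm0 : 0 < m0) (hm1 : m0 ≤ 1)
    (hs0 : 0 < s) (hs : s ≤ m0 / 2) (hS : ∫ V, SB z σ B V ∂(PM (T d L) μ) ≤ 1 / m0 - 1) :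
    (PM (T d L) μ).real {V | 2 * (6 * s / m0 ^ 2) + 2 * (1 / (z.im * m0)) *
      (30 * Real.exp (-(s / (2 * Real.sqrt a)))) <
      ‖FB z σ χ c B V - ∫ U, FB z σ χ c B U ∂(PM (T d L) μ)‖} ≤
      30 * Real.exp (-(s / (2 * Real.sqrt a))) := by
  have hN : (0 : ℝ) < B.card := by exact_mod_cast hB.card_pos
  have ha0 : 0 < a := lt_of_lt_of_le (by positivity) ha
  have hu : ∀ x : T d L, ‖(fun _ : T d L => (1 : ℂ)) x‖ ≤ 1 := fun x => by simp
  have c1 := conc_re hz μ b hb hσ χ c hχ hc B hB a ha0 ha s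
  have c2 := conc_im hz μ b hb hσ χ c hχ hc B hB a ha0 ha s
  have c3 := conc_re hz μ b hb hσ (fun _ => 1) (fun _ => 1) hu hu B hB a ha0 ha s
  set p := Real.exp (-(s / (2 * Real.sqrt a))) with hp
  have m1 := meas_dev (fun V => (XB z σ χ c B V).re)
    (Complex.continuous_re.comp (XB_cont hz χ c B)) s
    (∫ U, (XB z σ χ c B U).re ∂(PM (T d L) μ))
  have m2 := meas_dev (fun V => (XB z σ χ c B V).im)
    (Complex.continuous_im.comp (XB_cont hz χ c B)) s
    (∫ U, (XB z σ χ c B U).im ∂(PM (T d L) μ))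
  have m3' := meas_dev (fun V => (XB z σ (fun _ => 1) (fun _ => 1) B V).re)
    (Complex.continuous_re.comp (XB_cont hz _ _ B)) s
    (∫ U, (XB z σ (fun _ => 1) (fun _ => 1) B U).re ∂(PM (T d L) μ))
  have hX3c : Continuous fun V : T d L → ℝ => 1 / (1 + SB z σ B V) :=
    continuous_const.div (continuous_const.add (SB_cont hz B)) fun V => by
      have := SB_nonneg (σ := σ) hz B V
      linarith
  have hi3 : Integrable (fun V : T d L → ℝ => 1 / (1 + SB z σ B V)) (PM (T d L) μ) :=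
    Integrable.of_bound hX3c.aestronglyMeasurable 1 (Eventually.of_forall fun V => by
      have := SB_nonneg (σ := σ) hz B V
      rw [Real.norm_eq_abs, abs_of_nonneg (by positivity), div_le_one (by linarith)]
      linarith)
  have hiS : Integrable (fun V => SB z σ B V) (PM (T d L) μ) :=
    Integrable.of_bound (SB_cont hz B).aestronglyMeasurable (1 / z.im)
      (Eventually.of_forall fun V => by
        rw [Real.norm_eq_abs, abs_of_nonneg (SB_nonneg hz B V)]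
        exact SB_le hz B hB V)
  have hm3 := jen (PM (T d L) μ) (fun V => SB z σ B V) (fun V => SB_nonneg hz B V) hiS hi3 m0 hm0 hS
  have hE3 : ∫ U, (XB z σ (fun _ => 1) (fun _ => 1) B U).re ∂(PM (T d L) μ) =
      1 - ∫ V, 1 / (1 + SB z σ B V) ∂(PM (T d L) μ) := by
    simp only [XB_one hz B]
    rw [integral_sub (integrable_const _) hi3]
    simp
  set E1 := ∫ U, (XB z σ χ c B U).re ∂(PM (T d L) μ) with hE1
  set E2 := ∫ U, (XB z σ χ c B U).im ∂(PM (T d L) μ) with hE2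
  set E3 := ∫ U, (XB z σ (fun _ => 1) (fun _ => 1) B U).re ∂(PM (T d L) μ) with hE3d
  set m3 := ∫ V, 1 / (1 + SB z σ B V) ∂(PM (T d L) μ) with hm3d
  have hm3p : 0 < m3 := lt_of_lt_of_le hm0 hm3
  have hXi : Integrable (fun V => XB z σ χ c B V) (PM (T d L) μ) :=
    Integrable.of_bound (XB_cont hz χ c B).aestronglyMeasurable 1
      (Eventually.of_forall fun V => XB_le hz χ c hχ hc B V)
  have hEX : ‖(E1 : ℂ) + E2 * Complex.I‖ ≤ 1 := by
    have h1 : (E1 : ℂ) + E2 * Complex.I = ∫ U, XB z σ χ c B U ∂(PM (T d L) μ) := by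
      rw [hE1, hE2]
      exact integral_re_add_im hXi
    rw [h1]
    have h2 := norm_integral_le_of_norm_le_const (μ := PM (T d L) μ)
      (f := fun U => XB z σ χ c B U) (C := 1)
      (Eventually.of_forall fun V => XB_le hz χ c hχ hc B V)
    simpa using h2
  have hiF : Integrable (fun V => FB z σ χ c B V) (PM (T d L) μ) :=
    Integrable.of_bound (FB_cont hz χ c B).aestronglyMeasurable (1 / z.im)
      (Eventually.of_forall fun V => (FB_le hz χ c hχ hc B V).trans (SB_le hz B hB V))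
  refine fin_prob (PM (T d L) μ) (fun V => FB z σ χ c B V) hiF
    (((E1 : ℂ) + E2 * Complex.I) / ((m3 : ℝ) : ℂ)) (1 / (z.im * m0)) (30 * p) (6 * s / m0 ^ 2)
    (by positivity) ?_ ?_ _ (m1.union (m2.union m3')) ?_ (by positivity) ?_
  · rw [norm_div, Complex.norm_real, Real.norm_eq_abs, abs_of_pos hm3p]
    refine div_le_div₀ zero_le_one hEX (by positivity) ?_
    nlinarith
  · intro V
    refine ((FB_le hz χ c hχ hc B V).trans (SB_le hz B hB V)).trans ?_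
    exact one_div_le_one_div_of_le (by positivity) (by nlinarith)
  · refine (measureReal_union_le _ _).trans ?_
    refine (add_le_add c1 ((measureReal_union_le _ _).trans (add_le_add c2 c3))).trans
      (le_of_eq ?_)
    ring
  · intro V hV
    rw [Set.mem_union, Set.mem_union, not_or, not_or] at hV
    obtain ⟨g1, g2, g3⟩ := hV
    have g1' : |(XB z σ χ c B V).re - E1| < s := not_le.1 g1
    have g2' : |(XB z σ χ c B V).im - E2| < s := not_le.1 g2
    have g3' : |(XB z σ (fun _ => 1) (fun _ => 1) B V).re - E3| < s := not_le.1 g3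
    rw [XB_mul hz χ c B V]
    refine alg (XB z σ χ c B V) _ (1 / (1 + SB z σ B V)) m3 m0 s hm0 hm1 hs0 hs hm3 ?_ ?_ hEX
    · rw [XB_one hz B V, hE3] at g3'
      have e1 : 1 - 1 / (1 + SB z σ B V) - (1 - m3) = -(1 / (1 + SB z σ B V) - m3) := by ring
      rw [e1, abs_neg] at g3'
      exact g3'
    · have e2 : XB z σ χ c B V - ((E1 : ℂ) + E2 * Complex.I) =
          (((XB z σ χ c B V).re - E1 : ℝ) : ℂ) + (((XB z σ χ c B V).im - E2 : ℝ) : ℂ) *
            Complex.I := by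
        apply Complex.ext <;> simp
      rw [e2]
      refine (norm_add_le _ _).trans ?_
      rw [norm_mul, Complex.norm_I, mul_one, Complex.norm_real, Complex.norm_real,
        Real.norm_eq_abs, Real.norm_eq_abs]
      linarith

end Pool.Agent.Zk11.QQ
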