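import Pool.Agent.Zk11.QD.Zp

/-! The resolvent matrix on the torus. -/

set_option autoImplicit false
set_option linter.unusedSectionVars false

open scoped BigOperators Topology
open MeasureTheory Filter

namespace Pool.Agent.Zk11.QQ

open Pool.Agent.Zk11.QD
open Pool.Agent.W788.MFP.Four (T)

variable {d L : ℕ} [NeZero L] {z : ℂ} {σ : ℝ}

/-- the resolvent matrix -/
noncomputable def gg (z : ℂ) (σ : ℝ) (V : T d L → ℝ) (x y : T d L) : ℂ := (HM z σ V)⁻¹ x y

theorem uu_gg (V : T d L → ℝ) (x : T d L) : uu z σ V x = gg z σ V x 0 := rfl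

theorem HM_symm (V : T d L → ℝ) : (HM z σ V).transpose = HM z σ V := by
  ext x y
  rw [Matrix.transpose_apply]
  unfold HM
  simp only [Matrix.of_apply]
  congr 1
  · by_cases h : x = y
    · subst h; rfl
    · rw [if_neg h, if_neg (Ne.symm h)]
  · refine Finset.sum_congr rfl fun i _ => ?_
    have e1 : y + Pi.single i 1 = x ↔ x - Pi.single i 1 = y := by
      constructor
      · intro h; rw [← h]; abel
      · intro h; rw [← h]; abel
    have e2 : y - Pi.single i 1 = x ↔ x + Pi.single i 1 = y := by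
      constructor
      · intro h; rw [← h]; abel
      · intro h; rw [← h]; abel
    simp only [e1, e2]
    ring

theorem gg_symm (V : T d L → ℝ) (x y : T d L) : gg z σ V x y = gg z σ V y x := by
  unfold gg
  have h := Matrix.transpose_nonsing_inv (HM z σ V)
  rw [HM_symm] at h
  have h2 := congrFun (congrFun h y) x
  rw [Matrix.transpose_apply] at h2
  exact h2

theorem gg_mul (hz : 0 < z.im) (V : T d L → ℝ) (f : T d L → ℂ) (x : T d L) :
    Hz z σ V (fun t => ∑ y, gg z σ V t y * f y) x = f x := by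
  have h1 := Matrix.mul_nonsing_inv (HM z σ V) (isUnit_iff_ne_zero.2 (HM_det z hz σ V))
  have h2 : (HM z σ V).mulVec ((HM z σ V)⁻¹.mulVec f) = f := by
    rw [Matrix.mulVec_mulVec, h1, Matrix.one_mulVec]
  rw [← HM_apply]
  exact congrFun h2 x

theorem gg_unique (hz : 0 < z.im) (V : T d L → ℝ) (w f : T d L → ℂ)
    (h : ∀ x, Hz z σ V w x = f x) (x : T d L) : w x = ∑ y, gg z σ V x y * f y := by
  have h1 := Matrix.nonsing_inv_mul (HM z σ V) (isUnit_iff_ne_zero.2 (HM_det z hz σ V))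
  have h2 : (HM z σ V)⁻¹.mulVec ((HM z σ V).mulVec w) = w := by
    rw [Matrix.mulVec_mulVec, h1, Matrix.one_mulVec]
  have h3 : (HM z σ V).mulVec w = f := by
    funext t
    rw [HM_apply]
    exact h t
  rw [h3] at h2
  exact (congrFun h2 x).symm

theorem gg_eq (hz : 0 < z.im) (V : T d L → ℝ) (x y : T d L) :
    Hz z σ V (fun t => gg z σ V t y) x = if x = y then 1 else 0 := by
  have h1 := gg_mul (σ := σ) hz V (fun t => if t = y then 1 else 0) x
  simp only [mul_ite, mul_one, mul_zero, Finset.sum_ite_eq', Finset.mem_univ, if_true] at h1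
  exact h1

theorem gg_norm (hz : 0 < z.im) (V : T d L → ℝ) (f : T d L → ℂ) :
    ∑ x, ‖∑ y, gg z σ V x y * f y‖ ^ 2 ≤ 1 / z.im ^ 2 * ∑ y, ‖f y‖ ^ 2 := by
  have h1 := Hz_coercive hz (σ := σ) V (fun t => ∑ y, gg z σ V t y * f y)
  simp only [gg_mul hz V f] at h1
  rw [div_mul_eq_mul_div, one_mul, le_div_iff₀ (by positivity), mul_comm]
  exact h1

theorem ward (hz : 0 < z.im) (V : T d L → ℝ) (y : T d L) :
    z.im * ∑ x, ‖gg z σ V x y‖ ^ 2 = (gg z σ V y y).im := by
  have h1 := Hz_im (z := z) (σ := σ) V (fun t => gg z σ V t y)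
  simp only [gg_eq hz V, mul_ite, mul_one, mul_zero, Finset.sum_ite_eq', Finset.mem_univ,
    if_true, Complex.conj_im] at h1
  linarith

theorem ward' (hz : 0 < z.im) (V : T d L → ℝ) (y : T d L) :
    ∑ x, ‖gg z σ V x y‖ ^ 2 = (gg z σ V y y).im / z.im := by
  rw [← ward hz V y]
  field_simp

theorem ggi_nonneg (hz : 0 < z.im) (V : T d L → ℝ) (y : T d L) : 0 ≤ (gg z σ V y y).im := by
  rw [← ward hz V y]
  exact mul_nonneg hz.le (Finset.sum_nonneg fun _ _ => by positivity)

theorem gg_ne (hz : 0 < z.im) (V : T d L → ℝ) (y : T d L) : gg z σ V y y ≠ 0 := by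
  intro h
  have h1 := ward' (σ := σ) hz V y
  rw [h, Complex.zero_im, zero_div] at h1
  have h2 : ∀ x, gg z σ V x y = 0 := by
    intro x
    have h3 := (Finset.sum_eq_zero_iff_of_nonneg (fun x _ => by positivity)).1 h1 x
      (Finset.mem_univ x)
    have h4 : ‖gg z σ V x y‖ = 0 := pow_eq_zero_iff (two_ne_zero) |>.1 h3
    exact norm_eq_zero.1 h4
  have h3 := gg_eq (σ := σ) hz V y y
  rw [if_pos rfl] at h3
  unfold Hz at h3
  simp only [h2] at h3
  simp at h3

theorem ggi_pos (hz : 0 < z.im) (V : T d L → ℝ) (y : T d L) : 0 < (gg z σ V y y).im := by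
  rw [← ward hz V y]
  refine mul_pos hz ?_
  have h1 : ‖gg z σ V y y‖ ^ 2 ≤ ∑ x, ‖gg z σ V x y‖ ^ 2 :=
    Finset.single_le_sum (f := fun x => ‖gg z σ V x y‖ ^ 2) (fun _ _ => by positivity)
      (Finset.mem_univ y)
  have h2 : 0 < ‖gg z σ V y y‖ := norm_pos_iff.2 (gg_ne hz V y)
  have : 0 < ‖gg z σ V y y‖ ^ 2 := by positivity
  linarith

theorem ggi_le (hz : 0 < z.im) (V : T d L → ℝ) (y : T d L) : (gg z σ V y y).im ≤ 1 / z.im := by
  have h1 := ward' (σ := σ) hz V y
  set a := gg z σ V y y with ha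
  have h2 : ‖a‖ ^ 2 ≤ a.im / z.im := by
    rw [← h1]
    exact Finset.single_le_sum (f := fun x => ‖gg z σ V x y‖ ^ 2) (fun _ _ => by positivity)
      (Finset.mem_univ y)
  have h3 : a.im ≤ ‖a‖ := (le_abs_self _).trans (Complex.abs_im_le_norm a)
  have h4 := ggi_pos (σ := σ) hz V y
  rw [← ha] at h4
  have h5 : a.im ^ 2 ≤ a.im / z.im := (pow_le_pow_left₀ h4.le h3 2).trans h2
  have h6 : a.im * a.im ≤ a.im * (1 / z.im) := by
    calc a.im * a.im = a.im ^ 2 := by ring
      _ ≤ a.im / z.im := h5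
      _ = _ := by ring
  exact le_of_mul_le_mul_left h6 h4

theorem gg_shift (hz : 0 < z.im) (V : T d L → ℝ) (a x y : T d L) :
    gg z σ (fun t => V (t + a)) x y = gg z σ V (x + a) (y + a) := by
  have h1 := gg_unique (σ := σ) hz (fun t => V (t + a)) (fun t => gg z σ V (t + a) (y + a))
    (fun t => if t = y then 1 else 0) (fun t => by
      have h2 := gg_eq (σ := σ) hz V (t + a) (y + a)
      have e1 : (if t + a = y + a then (1 : ℂ) else 0) = if t = y then 1 else 0 := by
        simp only [add_left_inj]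
      rw [e1] at h2
      rw [← h2]
      unfold Hz
      congr 1
      refine Finset.sum_congr rfl fun i _ => ?_
      have e2 : t + Pi.single i 1 + a = t + a + Pi.single i 1 := by abel
      have e3 : t - Pi.single i 1 + a = t + a - Pi.single i 1 := by abel
      beta_reduce
      rw [e2, e3]) x
  simp only [mul_ite, mul_one, mul_zero, Finset.sum_ite_eq', Finset.mem_univ, if_true] at h1
  exact h1.symm

theorem Hz_update (V : T d L → ℝ) (v : T d L) (w : T d L → ℂ) (x : T d L) :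
    Hz z σ V w x = Hz z σ (Function.update V v 0) w x +
      if x = v then ((σ * V v : ℝ) : ℂ) * w v else 0 := by
  unfold Hz
  by_cases h : x = v
  · subst h
    rw [Function.update_self, if_pos rfl]
    push_cast
    ring
  · rw [Function.update_of_ne h, if_neg h, add_zero]

/-- one site is changed -/
theorem gg_up (hz : 0 < z.im) (V : T d L → ℝ) (v x y : T d L) :
    gg z σ (Function.update V v 0) x y = gg z σ V x y +
      ((σ * V v : ℝ) : ℂ) * gg z σ (Function.update V v 0) v y * gg z σ V x v := by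
  set V' := Function.update V v 0 with hV'
  have h1 := gg_unique (σ := σ) hz V (fun t => gg z σ V' t y)
    (fun t => (if t = y then 1 else 0) + if t = v then ((σ * V v : ℝ) : ℂ) * gg z σ V' v y else 0)
    (fun t => by
      rw [Hz_update V v, gg_eq hz]) x
  rw [h1]
  simp only [mul_add, Finset.sum_add_distrib, mul_ite, mul_one, mul_zero, Finset.sum_ite_eq',
    Finset.mem_univ, if_true]
  ring

theorem gg_up' (hz : 0 < z.im) (V : T d L → ℝ) (v x y : T d L) :
    gg z σ (Function.update V v 0) x y = gg z σ V x y +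
      ((σ * V v : ℝ) : ℂ) * gg z σ (Function.update V v 0) x v * gg z σ V v y := by
  rw [gg_symm (Function.update V v 0) x y, gg_up hz V v y x, gg_symm V y x, gg_symm V y v,
    gg_symm (Function.update V v 0) v x]

theorem gg_prod (hz : 0 < z.im) (V : T d L → ℝ) (v x y : T d L) :
    gg z σ (Function.update V v 0) v y * gg z σ V x v =
      gg z σ (Function.update V v 0) x v * gg z σ V v y := by
  have h1 := gg_up (σ := σ) hz V v v y
  have h2 := gg_up' (σ := σ) hz V v x v
  set V' := Function.update V v 0 with hV'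
  have h3 : gg z σ V v y = gg z σ V' v y * (1 - ((σ * V v : ℝ) : ℂ) * gg z σ V v v) := by
    linear_combination -h1
  have h4 : gg z σ V x v = gg z σ V' x v * (1 - ((σ * V v : ℝ) : ℂ) * gg z σ V v v) := by
    linear_combination -h2
  rw [h3, h4]
  ring

/-- the bound for a change at one site -/
theorem sc_bound (a a' : ℂ) (t : ℝ) (ha : 0 < a.im) (ha' : 0 < a'.im)
    (h : a' = a + (t : ℂ) * a' * a) : t ^ 2 * (a'.im * a.im) ≤ 4 := by
  have hA : 0 < ‖a‖ := norm_pos_iff.2 fun h0 => by rw [h0] at ha; simp at ha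
  have hA' : 0 < ‖a'‖ := norm_pos_iff.2 fun h0 => by rw [h0] at ha'; simp at ha'
  have h1 : (a' - a) = (t : ℂ) * a' * a := by linear_combination h
  have h2 : (a' - a) * ((starRingEnd ℂ) a * (starRingEnd ℂ) a') =
      ((t * ‖a‖ ^ 2 * ‖a'‖ ^ 2 : ℝ) : ℂ) := by
    rw [h1]
    push_cast
    have e1 : ((‖a‖ : ℂ)) ^ 2 = a * (starRingEnd ℂ) a := (Complex.mul_conj' a).symm
    have e2 : ((‖a'‖ : ℂ)) ^ 2 = a' * (starRingEnd ℂ) a' := (Complex.mul_conj' a').symm
    rw [e1, e2]
    ring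
  have h3 : (a' - a) * ((starRingEnd ℂ) a * (starRingEnd ℂ) a') =
      ((‖a'‖ ^ 2 : ℝ) : ℂ) * (starRingEnd ℂ) a - ((‖a‖ ^ 2 : ℝ) : ℂ) * (starRingEnd ℂ) a' := by
    push_cast
    have e1 : ((‖a‖ : ℂ)) ^ 2 = a * (starRingEnd ℂ) a := (Complex.mul_conj' a).symm
    have e2 : ((‖a'‖ : ℂ)) ^ 2 = a' * (starRingEnd ℂ) a' := (Complex.mul_conj' a').symm
    rw [e1, e2]
    ring
  have h4 := congrArg Complex.im (h3.symm.trans h2)
  rw [Complex.sub_im, Complex.im_ofReal_mul, Complex.im_ofReal_mul, Complex.conj_im,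
    Complex.conj_im, Complex.ofReal_im] at h4
  have h5 : ‖a'‖ ^ 2 * a.im = ‖a‖ ^ 2 * a'.im := by linarith
  set s := a.im / ‖a‖ ^ 2 with hs
  have hs0 : 0 < s := by positivity
  have e1 : a.im = s * ‖a‖ ^ 2 := by rw [hs]; field_simp
  have e2 : a'.im = s * ‖a'‖ ^ 2 := by
    rw [hs]
    field_simp
    linarith
  have h6 : s * ‖a‖ ≤ 1 := by
    have h7 : a.im ≤ ‖a‖ := (le_abs_self _).trans (Complex.abs_im_le_norm a)
    rw [e1] at h7
    have h8 : ‖a‖ * (s * ‖a‖) ≤ ‖a‖ * 1 := by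
      calc ‖a‖ * (s * ‖a‖) = s * ‖a‖ ^ 2 := by ring
        _ ≤ ‖a‖ := h7
        _ = _ := (mul_one _).symm
    exact le_of_mul_le_mul_left h8 hA
  have h6' : s * ‖a'‖ ≤ 1 := by
    have h7 : a'.im ≤ ‖a'‖ := (le_abs_self _).trans (Complex.abs_im_le_norm a')
    rw [e2] at h7
    have h8 : ‖a'‖ * (s * ‖a'‖) ≤ ‖a'‖ * 1 := by
      calc ‖a'‖ * (s * ‖a'‖) = s * ‖a'‖ ^ 2 := by ring
        _ ≤ ‖a'‖ := h7
        _ = _ := (mul_one _).symm
    exact le_of_mul_le_mul_left h8 hA'
  have h9 : ‖a' - a‖ = |t| * ‖a'‖ * ‖a‖ := by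
    rw [h1, norm_mul, norm_mul, Complex.norm_real, Real.norm_eq_abs]
  have h10 : s * ‖a' - a‖ ≤ 2 := by
    have := norm_sub_le a' a
    calc s * ‖a' - a‖ ≤ s * (‖a'‖ + ‖a‖) := mul_le_mul_of_nonneg_left this hs0.le
      _ = s * ‖a'‖ + s * ‖a‖ := by ring
      _ ≤ 2 := by linarith
  have h11 : t ^ 2 * (a'.im * a.im) = (s * ‖a' - a‖) ^ 2 := by
    rw [h9, e1, e2, mul_pow s, mul_pow (|t| * ‖a'‖), mul_pow (|t|), sq_abs]
    ring
  rw [h11]
  calc (s * ‖a' - a‖) ^ 2 ≤ 2 ^ 2 := pow_le_pow_left₀ (by positivity) h10 2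
    _ = 4 := by norm_num

theorem gg_cont (x y : T d L) (hz : 0 < z.im) : Continuous fun V : T d L → ℝ => gg z σ V x y := by
  have hc : Continuous fun V : T d L → ℝ => HM z σ V := by
    unfold HM
    refine continuous_matrix fun x y => ?_
    simp only [Matrix.of_apply]
    refine Continuous.sub ?_ continuous_const
    split_ifs
    · fun_prop
    · exact continuous_const
  unfold gg
  simp only [Matrix.inv_def, Ring.inverse_eq_inv', Matrix.smul_apply, smul_eq_mul]
  refine Continuous.mul ?_ ?_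
  · exact (Continuous.matrix_det hc).inv₀ fun V => HM_det z hz σ V
  · exact (continuous_apply_apply x y).comp (Continuous.matrix_adjugate hc)

end Pool.Agent.Zk11.QQ
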