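import Pool.Agent.Zk11.QQ.Zl

/-! Concentration on the lattice. -/

set_option autoImplicit false
set_option linter.unusedSectionVars false

open scoped BigOperators Topology ENNReal
open MeasureTheory Filter

namespace Pool.Agent.Zk11.QQ

open Pool.Agent.Zk11.QD
open Pool.Agent.W788.MFP.Four (T e e_add e_zero e_neg)

variable {d : ℕ}

theorem ae_Z (μ : Measure ℝ) [IsProbabilityMeasure μ] (b : ℝ) (hb : ∀ᵐ s ∂μ, |s| ≤ b) :
    ∀ᵐ ω ∂(PZ d μ), ∀ x, |ω x| ≤ b :=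
  ae_all_iff.2 fun x =>
    (measurePreserving_eval_infinitePi (fun _ : Zd d => μ) x).quasiMeasurePreserving.ae hb

theorem sh_map (μ : Measure ℝ) [IsProbabilityMeasure μ] (y : Zd d) :
    (PZ d μ).map (sh y) = PZ d μ :=
  Measure.map_infinitePi_infinitePi_of_inj (P := fun _ : Zd d => μ)
    (f := fun x : Zd d => x + y) (add_left_injective y)

theorem sh_meas (y : Zd d) : Measurable (sh y) := by
  unfold sh
  fun_prop

section
variable (μ : Measure ℝ) [IsProbabilityMeasure μ] (lam : ℝ) (z : ℂ) (hz : 0 < z.im)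
  (b : ℝ) (hb : ∀ᵐ s ∂μ, |s| ≤ b)

theorem FBh_cont (hz : 0 < z.im) (θ : Fin d → ℝ) (B : Finset (Zd d)) (h : ℕ) :
    Continuous (FB z lam (e (pm (2 * h + 1) θ)) (fun t => e (pm (2 * h + 1) θ) (-t))
      (B.image (pr (2 * h + 1)))) := FB_cont hz _ _ _

include hz hb

theorem FZ_aesm (θ : Fin d → ℝ) (B : Finset (Zd d)) :
    AEStronglyMeasurable (FZ lam z θ B) (PZ d μ) := by
  refine aestronglyMeasurable_of_tendsto_ae atTop
    (f := fun (h : ℕ) (ω : Zd d → ℝ) => FB z lam (e (pm (2 * h + 1) θ))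
      (fun t => e (pm (2 * h + 1) θ) (-t)) (B.image (pr (2 * h + 1))) (VL h ω)) (fun h => ?_) ?_
  · exact ((FBh_cont lam z hz θ B h).measurable.comp (VL_meas h)).aestronglyMeasurable
  · filter_upwards [ae_Z μ b hb] with ω hω
    exact FB_lim lam z hz b ω hω θ B

theorem Ph_aesm (θ : Fin d → ℝ) : AEStronglyMeasurable (Ph lam z θ) (PZ d μ) := by
  have h1 := FZ_aesm μ lam z hz b hb θ ({0} : Finset (Zd d))
  refine h1.congr (Eventually.of_forall fun ω => ?_)
  unfold FZ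
  rw [Finset.card_singleton, Finset.sum_singleton]
  have : sh (0 : Zd d) ω = ω := by
    funext x
    unfold sh
    rw [add_zero]
  rw [this]
  simp

omit hb in
theorem Ph_le (θ : Fin d → ℝ) (ω : Zd d → ℝ) : ‖Ph lam z θ ω‖ ≤ 2 / z.im := by
  have hG := Gc_isG lam z hz ω
  unfold Ph
  rw [norm_mul, Complex.norm_real, Real.norm_eq_abs, abs_of_pos hz]
  have h1 : ‖∑' x, ex θ x * ((‖Gc lam z ω x‖ ^ 2 : ℝ) : ℂ)‖ ≤ ∑' x, ‖Gc lam z ω x‖ ^ 2 := by
    have e1 : ∀ x, ‖ex θ x * ((‖Gc lam z ω x‖ ^ 2 : ℝ) : ℂ)‖ = ‖Gc lam z ω x‖ ^ 2 := by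
      intro x
      rw [norm_mul, ex_norm, one_mul, Complex.norm_real, Real.norm_eq_abs,
        abs_of_nonneg (by positivity)]
    refine (norm_tsum_le_tsum_norm ?_).trans (le_of_eq (tsum_congr e1))
    simp only [e1]
    exact hG.sq
  have h2 := isG_norm lam ω z hz _ hG
  calc z.im * ‖∑' x, ex θ x * ((‖Gc lam z ω x‖ ^ 2 : ℝ) : ℂ)‖ ≤ z.im * (2 / z.im ^ 2) :=
        mul_le_mul_of_nonneg_left (h1.trans h2) hz.le
    _ = _ := by
        have : z.im ≠ 0 := hz.ne'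
        field_simp

theorem Ph_int (θ : Fin d → ℝ) : Integrable (Ph lam z θ) (PZ d μ) :=
  Integrable.of_bound (Ph_aesm μ lam z hz b hb θ) (2 / z.im)
    (Eventually.of_forall fun ω => Ph_le lam z hz θ ω)

theorem Ph_sh (θ : Fin d → ℝ) (y : Zd d) :
    ∫ ω, Ph lam z θ (sh y ω) ∂(PZ d μ) = ∫ ω, Ph lam z θ ω ∂(PZ d μ) := by
  have h1 : AEStronglyMeasurable (Ph lam z θ) ((PZ d μ).map (sh y)) := by
    rw [sh_map]
    exact Ph_aesm μ lam z hz b hb θ
  rw [← integral_map (sh_meas y).aemeasurable h1, sh_map]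

theorem Ph_sh_int (θ : Fin d → ℝ) (y : Zd d) :
    Integrable (fun ω => Ph lam z θ (sh y ω)) (PZ d μ) := by
  have h1 : Integrable (Ph lam z θ) ((PZ d μ).map (sh y)) := by
    rw [sh_map]
    exact Ph_int μ lam z hz b hb θ
  exact h1.comp_measurable (sh_meas y)

theorem FZ_mean (θ : Fin d → ℝ) (B : Finset (Zd d)) (hB : B.Nonempty) :
    ∫ ω, FZ lam z θ B ω ∂(PZ d μ) = ∫ ω, Ph lam z θ ω ∂(PZ d μ) := by
  have hN : (B.card : ℂ) ≠ 0 := by exact_mod_cast hB.card_pos.ne'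
  unfold FZ
  rw [integral_const_mul, integral_finsetSum _ fun y _ => Ph_sh_int μ lam z hz b hb θ y]
  simp only [Ph_sh μ lam z hz b hb θ]
  rw [Finset.sum_const, nsmul_eq_mul]
  field_simp

theorem FBh_mean (θ : Fin d → ℝ) (B : Finset (Zd d)) (h : ℕ) :
    ∫ ω, FB z lam (e (pm (2 * h + 1) θ)) (fun t => e (pm (2 * h + 1) θ) (-t))
      (B.image (pr (2 * h + 1))) (VL h ω) ∂(PZ d μ) =
    ∫ V, FB z lam (e (pm (2 * h + 1) θ)) (fun t => e (pm (2 * h + 1) θ) (-t))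
      (B.image (pr (2 * h + 1))) V ∂(PM (T d (2 * h + 1)) μ) := by
  have h1 : (PZ d μ).map (fun ω => VL h ω) = PM (T d (2 * h + 1)) μ := VL_map μ h
  rw [← h1, integral_map (VL_meas h).aemeasurable]
  exact (FBh_cont lam z hz θ B h).aestronglyMeasurable

theorem mean_lim (θ : Fin d → ℝ) (B : Finset (Zd d)) (hB : B.Nonempty) :
    Tendsto (fun h : ℕ => ∫ V, FB z lam (e (pm (2 * h + 1) θ))
      (fun t => e (pm (2 * h + 1) θ) (-t)) (B.image (pr (2 * h + 1))) V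
        ∂(PM (T d (2 * h + 1)) μ)) atTop (𝓝 (∫ ω, Ph lam z θ ω ∂(PZ d μ))) := by
  simp only [← FBh_mean μ lam z hz b hb θ B]
  rw [← FZ_mean μ lam z hz b hb θ B hB]
  refine tendsto_integral_filter_of_dominated_convergence (fun _ => 1 / z.im) ?_ ?_
    (integrable_const _) ?_
  · exact Eventually.of_forall fun h =>
      ((FBh_cont lam z hz θ B h).measurable.comp (VL_meas h)).aestronglyMeasurable
  · refine Eventually.of_forall fun h => Eventually.of_forall fun ω => ?_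
    refine (FB_le hz _ _ (fun x => (e_norm _ _).le) (fun x => (e_norm _ _).le) _ _).trans ?_
    exact SB_le hz _ (hB.image _) _
  · filter_upwards [ae_Z μ b hb] with ω hω
    exact FB_lim lam z hz b ω hω θ B

omit hb hz in
theorem pm_zero (L : ℕ) : pm L (0 : Fin d → ℝ) = 0 := by
  funext j
  unfold pm ni
  simp

theorem S_lim (B : Finset (Zd d)) (hB : B.Nonempty) :
    Tendsto (fun h : ℕ => ∫ V, SB z lam (B.image (pr (2 * h + 1))) V
        ∂(PM (T d (2 * h + 1)) μ)) atTop (𝓝 (∫ ω, Ph lam z 0 ω ∂(PZ d μ)).re) := by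
  have h1 := (Complex.continuous_re.tendsto _).comp (mean_lim μ lam z hz b hb 0 B hB)
  refine h1.congr fun h => ?_
  rw [Function.comp_apply]
  have e1 : ∀ V : T d (2 * h + 1) → ℝ, FB z lam (e (pm (2 * h + 1) 0))
      (fun t => e (pm (2 * h + 1) 0) (-t)) (B.image (pr (2 * h + 1))) V =
      ((SB z lam (B.image (pr (2 * h + 1))) V : ℝ) : ℂ) := by
    intro V
    rw [SB_FB hz]
    have e2 : ∀ x : T d (2 * h + 1), e (pm (2 * h + 1) (0 : Fin d → ℝ)) x = 1 := by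
      intro x
      rw [pm_zero, Pool.Agent.W788.MFP.Four.e_comm, e_zero]
    unfold FB
    simp only [e2]
  simp only [e1]
  rw [integral_complex_ofReal, Complex.ofReal_re]

/-- **concentration on the lattice** -/
theorem lat_conc (hz1 : z.im ≤ 1) (hb0 : 0 < b) (hlam : 0 < lam) (θ : Fin d → ℝ)
    (B : Finset (Zd d)) (hB : B.Nonempty) (a : ℝ)
    (ha : 16 * (lam * b) ^ 2 / (z.im ^ 3 * B.card) ≤ a) (m0 s : ℝ) (hm0 : 0 < m0) (hm1 : m0 ≤ 1)
    (hs0 : 0 < s) (hs : s ≤ m0 / 2) (hS : (∫ ω, Ph lam z 0 ω ∂(PZ d μ)).re < 1 / m0 - 1) :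
    (PZ d μ) {ω | 2 * (6 * s / m0 ^ 2) + 2 * (1 / (z.im * m0)) *
      (30 * Real.exp (-(s / (2 * Real.sqrt a)))) <
      ‖FZ lam z θ B ω - ∫ ω, Ph lam z θ ω ∂(PZ d μ)‖} ≤
      ENNReal.ofReal (30 * Real.exp (-(s / (2 * Real.sqrt a)))) := by
  classical
  set p := 30 * Real.exp (-(s / (2 * Real.sqrt a))) with hp
  set r0 := 2 * (6 * s / m0 ^ 2) + 2 * (1 / (z.im * m0)) * p with hr0
  set c := ∫ ω, Ph lam z θ ω ∂(PZ d μ) with hc
  set f : (h : ℕ) → (T d (2 * h + 1) → ℝ) → ℂ := fun h => FB z lam (e (pm (2 * h + 1) θ))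
      (fun t => e (pm (2 * h + 1) θ) (-t)) (B.image (pr (2 * h + 1))) with hf
  set ch : ℕ → ℂ := fun h => ∫ V, f h V ∂(PM (T d (2 * h + 1)) μ) with hch
  have hcl : Tendsto ch atTop (𝓝 c) := mean_lim μ lam z hz b hb θ B hB
  set A : ℕ → Set (Zd d → ℝ) := fun h => {ω | r0 < ‖f h (VL h ω) - ch h‖} with hA
  have h3 : ∀ᶠ h : ℕ in atTop, ∀ y ∈ B, ∀ i, |y i| ≤ h := by
    rw [Filter.eventually_all_finset]
    intro y _
    exact in_box y
  have hAp : ∀ᶠ h : ℕ in atTop, (PZ d μ) (A h) ≤ ENNReal.ofReal p := by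
    filter_upwards [h3, (S_lim μ lam z hz b hb B hB).eventually_le_const hS] with h hh hSh
    have hinj : Set.InjOn (pr (2 * h + 1)) (B : Set (Zd d)) := by
      intro a ha c hc hac
      rw [← lift_pr a (hh a ha), ← lift_pr c (hh c hc), hac]
    have h4 := tor_conc (L := 2 * h + 1) hz hz1 μ b hb0 hb hlam (e (pm (2 * h + 1) θ))
      (fun t => e (pm (2 * h + 1) θ) (-t)) (fun x => (e_norm _ _).le) (fun x => (e_norm _ _).le)
      (B.image (pr (2 * h + 1))) (hB.image _) a (by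
        rw [Finset.card_image_of_injOn hinj]
        exact ha) m0 s hm0 hm1 hs0 hs hSh
    have h5 : A h = (fun ω => VL h ω) ⁻¹' {V | r0 < ‖f h V - ch h‖} := rfl
    have h6 : (PZ d μ).map (fun ω => VL h ω) = PM (T d (2 * h + 1)) μ := VL_map μ h
    have hm : MeasurableSet {V | r0 < ‖f h V - ch h‖} :=
      (isOpen_lt continuous_const
        ((FBh_cont lam z hz θ B h).sub continuous_const).norm).measurableSet
    rw [h5, ← Measure.map_apply (VL_meas h) hm, h6]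
    have h7 : (PM (T d (2 * h + 1)) μ).real {V | r0 < ‖f h V - ch h‖} ≤ p := h4
    rw [measureReal_def] at h7
    exact (ENNReal.le_ofReal_iff_toReal_le (measure_ne_top _ _)
      (ENNReal.toReal_nonneg.trans h7)).2 h7
  obtain ⟨N0, hN0⟩ := eventually_atTop.1 hAp
  set C : ℕ → Set (Zd d → ℝ) := fun N => ⋂ h ≥ N, A h with hC
  have hCm : Monotone C := by
    intro M N hMN ω hω
    rw [hC] at hω ⊢
    simp only [Set.mem_iInter] at hω ⊢
    exact fun h hh => hω h (hMN.trans hh)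
  have hU : (PZ d μ) (⋃ N, C N) ≤ ENNReal.ofReal p := by
    rw [hCm.measure_iUnion]
    refine iSup_le fun N => ?_
    refine le_trans (measure_mono ?_) (hN0 (max N N0) (le_max_right _ _))
    intro ω hω
    rw [hC] at hω
    simp only [Set.mem_iInter] at hω
    exact hω _ (le_max_left _ _)
  refine le_trans (measure_mono_ae ?_) hU
  filter_upwards [ae_Z μ b hb] with ω hω
  intro hω2
  have h8 : r0 < ‖FZ lam z θ B ω - c‖ := hω2
  have h9 := ((FB_lim lam z hz b ω hω θ B).sub hcl).norm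
  obtain ⟨N, hN⟩ := eventually_atTop.1 (h9.eventually_const_lt h8)
  change ω ∈ ⋃ N, C N
  rw [Set.mem_iUnion]
  refine ⟨N, ?_⟩
  rw [hC]
  simp only [Set.mem_iInter]
  exact fun h hh => hN h hh

end

end Pool.Agent.Zk11.QQ
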