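import Pool.Agent.Zk11.QQ.Rt
import Pool.Agent.Zk11.QD.Gen

/-! From the torus to the lattice: averages over several starting points. -/

set_option autoImplicit false
set_option linter.unusedSectionVars false

open scoped BigOperators Topology
open MeasureTheory Filter

namespace Pool.Agent.Zk11.QQ

open Pool.Agent.Zk11.QD
open Pool.Agent.W788.MFP.Four (T e e_add e_zero e_neg)

variable {d : ℕ}

/-- the Green function on the lattice -/
noncomputable def Gc (lam : ℝ) (z : ℂ) (ω : Zd d → ℝ) : Zd d → ℂ := by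
  classical
  exact if h : 0 < z.im then Classical.choose (isG_exists lam ω z h) else 0

theorem Gc_isG (lam : ℝ) (z : ℂ) (hz : 0 < z.im) (ω : Zd d → ℝ) : IsG lam ω z (Gc lam z ω) := by
  unfold Gc
  rw [dif_pos hz]
  exact Classical.choose_spec (isG_exists lam ω z hz)

/-- the shift -/
def sh (y : Zd d) (ω : Zd d → ℝ) : Zd d → ℝ := fun x => ω (x + y)

/-- the plane wave -/
noncomputable def ex (θ : Fin d → ℝ) (x : Zd d) : ℂ :=
  Complex.exp (((∑ j, θ j * x j : ℝ) : ℂ) * Complex.I)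

theorem ex_norm (θ : Fin d → ℝ) (x : Zd d) : ‖ex θ x‖ = 1 := Complex.norm_exp_ofReal_mul_I _

/-- the profile for one starting point -/
noncomputable def Ph (lam : ℝ) (z : ℂ) (θ : Fin d → ℝ) (ω : Zd d → ℝ) : ℂ :=
  (z.im : ℂ) * ∑' x, ex θ x * ((‖Gc lam z ω x‖ ^ 2 : ℝ) : ℂ)

/-- the average over starting points -/
noncomputable def FZ (lam : ℝ) (z : ℂ) (θ : Fin d → ℝ) (B : Finset (Zd d)) (ω : Zd d → ℝ) : ℂ :=
  (B.card : ℂ)⁻¹ * ∑ y ∈ B, Ph lam z θ (sh y ω)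

theorem sq_diff {ι : Type} [Fintype ι] (χ u w : ι → ℂ) (hχ : ∀ x, ‖χ x‖ ≤ 1) :
    ‖∑ x, χ x * ((‖u x‖ ^ 2 : ℝ) : ℂ) - ∑ x, χ x * ((‖w x‖ ^ 2 : ℝ) : ℂ)‖ ^ 2 ≤
      (∑ x, ‖u x - w x‖ ^ 2) * (2 * ∑ x, ‖u x‖ ^ 2 + 2 * ∑ x, ‖w x‖ ^ 2) := by
  have h3 : ‖∑ x, χ x * ((‖u x‖ ^ 2 : ℝ) : ℂ) - ∑ x, χ x * ((‖w x‖ ^ 2 : ℝ) : ℂ)‖ ≤
      ∑ x, ‖u x - w x‖ * (‖u x‖ + ‖w x‖) := by
    rw [← Finset.sum_sub_distrib]
    refine (norm_sum_le _ _).trans (Finset.sum_le_sum fun x _ => ?_)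
    rw [← mul_sub, norm_mul, ← Complex.ofReal_sub, Complex.norm_real, Real.norm_eq_abs]
    have e1 : ‖u x‖ ^ 2 - ‖w x‖ ^ 2 = (‖u x‖ - ‖w x‖) * (‖u x‖ + ‖w x‖) := by ring
    rw [e1, abs_mul, abs_of_nonneg (by positivity : 0 ≤ ‖u x‖ + ‖w x‖)]
    have h4 : |‖u x‖ - ‖w x‖| ≤ ‖u x - w x‖ := abs_norm_sub_norm_le _ _
    calc ‖χ x‖ * (|‖u x‖ - ‖w x‖| * (‖u x‖ + ‖w x‖)) ≤
          1 * (‖u x - w x‖ * (‖u x‖ + ‖w x‖)) :=
          mul_le_mul (hχ x) (mul_le_mul_of_nonneg_right h4 (by positivity)) (by positivity)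
            zero_le_one
      _ = _ := one_mul _
  refine (pow_le_pow_left₀ (norm_nonneg _) h3 2).trans ?_
  refine (Finset.sum_mul_sq_le_sq_mul_sq _ _ _).trans ?_
  refine mul_le_mul_of_nonneg_left ?_ (Finset.sum_nonneg fun _ _ => by positivity)
  rw [Finset.mul_sum, Finset.mul_sum, ← Finset.sum_add_distrib]
  refine Finset.sum_le_sum fun x _ => ?_
  nlinarith [sq_nonneg (‖u x‖ - ‖w x‖)]

theorem pert {L : ℕ} [NeZero L] (z : ℂ) (hz : 0 < z.im) (σ : ℝ) (V1 V2 : T d L → ℝ) :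
    z.im ^ 2 * ∑ x, ‖uu z σ V2 x - uu z σ V1 x‖ ^ 2 ≤
      σ ^ 2 * ∑ x, (V2 x - V1 x) ^ 2 * ‖uu z σ V1 x‖ ^ 2 := by
  have h1 := Hz_coercive hz (σ := σ) V2 (fun t => uu z σ V2 t - uu z σ V1 t)
  refine h1.trans (le_of_eq ?_)
  rw [Finset.mul_sum]
  refine Finset.sum_congr rfl fun x _ => ?_
  have h2 : Hz z σ V2 (uu z σ V1) x = Hz z σ V1 (uu z σ V1) x +
      ((σ * (V2 x - V1 x) : ℝ) : ℂ) * uu z σ V1 x := by
    unfold Hz
    push_cast
    ring
  rw [Hz_sub, h2, uu_eq z hz, uu_eq z hz]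
  have e1 : (if x = 0 then (1 : ℂ) else 0) - ((if x = 0 then (1 : ℂ) else 0) +
      ((σ * (V2 x - V1 x) : ℝ) : ℂ) * uu z σ V1 x) =
      -(((σ * (V2 x - V1 x) : ℝ) : ℂ) * uu z σ V1 x) := by ring
  rw [e1, norm_neg, norm_mul, Complex.norm_real, Real.norm_eq_abs, mul_pow, sq_abs]
  ring

theorem eq_or_far (h m : ℕ) (y : Zd d) (hy : ∀ i, |y i| ≤ m) (t : T d (2 * h + 1)) :
    lift (t + pr (2 * h + 1) y) = lift t + y ∨ far (h - m) (lift t) := by
  by_cases h1 : ∀ i, |(lift t + y) i| ≤ h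
  · left
    have h2 := lift_pr (h := h) (lift t + y) h1
    rw [pr_add, pr_lift] at h2
    exact h2
  · right
    push Not at h1
    obtain ⟨i, hi⟩ := h1
    refine ⟨i, ?_⟩
    have h3 := hy i
    rw [Pi.add_apply] at hi
    have h4 := abs_add_le (lift t i) (y i)
    have h5 := abs_nonneg (lift t i)
    omega

theorem shift_lim (lam : ℝ) (z : ℂ) (hz : 0 < z.im) (b : ℝ) (ω : Zd d → ℝ)
    (hω : ∀ x, |ω x| ≤ b) (y : Zd d) :
    Tendsto (fun h : ℕ => ∑ x : T d (2 * h + 1),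
      ‖uu z lam (fun t => VL h ω (t + pr (2 * h + 1) y)) x - uu z lam (VL h (sh y ω)) x‖ ^ 2)
      atTop (𝓝 0) := by
  classical
  have hb : 0 ≤ b := (abs_nonneg _).trans (hω 0)
  set G := Gc lam z (sh y ω) with hGd
  have hG : IsG lam (sh y ω) z G := Gc_isG lam z hz _
  set m : ℕ := ∑ i, (y i).natAbs with hm
  have hym : ∀ i, |y i| ≤ m := by
    intro i
    have h2 : (y i).natAbs ≤ ∑ i, (y i).natAbs :=
      Finset.single_le_sum (f := fun i => (y i).natAbs) (fun _ _ => Nat.zero_le _)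
        (Finset.mem_univ i)
    rw [Int.abs_eq_natAbs]
    omega
  have hc := close_lim lam (sh y ω) z hz G hG
  have hf := (fp_tail G hG.sq).comp (tendsto_sub_atTop_nat m)
  have hsum : Tendsto (fun h : ℕ => 8 * (lam ^ 2 * b ^ 2) / z.im ^ 2 * (∑ x : T d (2 * h + 1),
      ‖G (lift x) - uu z lam (VL h (sh y ω)) x‖ ^ 2 + ∑' y, ‖fp (h - m) G y‖ ^ 2)) atTop
      (𝓝 0) := by
    have := (hc.add hf).const_mul (8 * (lam ^ 2 * b ^ 2) / z.im ^ 2)
    rw [add_zero, mul_zero] at this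
    exact this
  refine squeeze_zero (fun _ => Finset.sum_nonneg fun _ _ => by positivity) (fun h => ?_) hsum
  have h1 := pert z hz lam (VL h (sh y ω)) (fun t => VL h ω (t + pr (2 * h + 1) y))
  have h2 : ∑ x : T d (2 * h + 1), (VL h ω (x + pr (2 * h + 1) y) - VL h (sh y ω) x) ^ 2 *
      ‖uu z lam (VL h (sh y ω)) x‖ ^ 2 ≤ 8 * b ^ 2 * (∑ x : T d (2 * h + 1),
      ‖G (lift x) - uu z lam (VL h (sh y ω)) x‖ ^ 2 + ∑' y, ‖fp (h - m) G y‖ ^ 2) := by
    have h3 : ∀ x : T d (2 * h + 1), (VL h ω (x + pr (2 * h + 1) y) - VL h (sh y ω) x) ^ 2 *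
        ‖uu z lam (VL h (sh y ω)) x‖ ^ 2 ≤ 8 * b ^ 2 *
        (‖G (lift x) - uu z lam (VL h (sh y ω)) x‖ ^ 2 + ‖fp (h - m) G (lift x)‖ ^ 2) := by
      intro x
      rcases eq_or_far h m y hym x with h4 | h4
      · have e1 : VL h ω (x + pr (2 * h + 1) y) - VL h (sh y ω) x = 0 := by
          unfold VL sh
          rw [h4, sub_self]
        rw [e1]
        have : 0 ≤ 8 * b ^ 2 *
          (‖G (lift x) - uu z lam (VL h (sh y ω)) x‖ ^ 2 + ‖fp (h - m) G (lift x)‖ ^ 2) := by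
          positivity
        linarith
      · have e1 : fp (h - m) G (lift x) = G (lift x) := by
          unfold fp
          rw [if_pos h4]
        rw [e1]
        have h5 : (VL h ω (x + pr (2 * h + 1) y) - VL h (sh y ω) x) ^ 2 ≤ (2 * b) ^ 2 := by
          rw [← sq_abs]
          refine pow_le_pow_left₀ (abs_nonneg _) ?_ 2
          refine (abs_sub _ _).trans ?_
          have h6 : |VL h ω (x + pr (2 * h + 1) y)| ≤ b := hω _
          have h7 : |VL h (sh y ω) x| ≤ b := hω _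
          linarith
        have h6 : ‖uu z lam (VL h (sh y ω)) x‖ ^ 2 ≤
            2 * ‖G (lift x) - uu z lam (VL h (sh y ω)) x‖ ^ 2 + 2 * ‖G (lift x)‖ ^ 2 := by
          have h7 : uu z lam (VL h (sh y ω)) x = G (lift x) -
              (G (lift x) - uu z lam (VL h (sh y ω)) x) := by ring
          have h8 := norm_sub_le (G (lift x)) (G (lift x) - uu z lam (VL h (sh y ω)) x)
          rw [← h7] at h8
          have h9 := pow_le_pow_left₀ (norm_nonneg _) h8 2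
          nlinarith [sq_nonneg (‖G (lift x) - uu z lam (VL h (sh y ω)) x‖ - ‖G (lift x)‖)]
        calc _ ≤ (2 * b) ^ 2 * (2 * ‖G (lift x) - uu z lam (VL h (sh y ω)) x‖ ^ 2 +
              2 * ‖G (lift x)‖ ^ 2) := mul_le_mul h5 h6 (by positivity) (by positivity)
          _ = _ := by ring
    refine (Finset.sum_le_sum fun x _ => h3 x).trans ?_
    rw [← Finset.mul_sum, Finset.sum_add_distrib]
    refine mul_le_mul_of_nonneg_left ?_ (by positivity)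
    refine add_le_add le_rfl ?_
    exact fp_inj (h - m) G hG.sq lift lift_inj
  have h3 : z.im ^ 2 * ∑ x : T d (2 * h + 1),
      ‖uu z lam (fun t => VL h ω (t + pr (2 * h + 1) y)) x - uu z lam (VL h (sh y ω)) x‖ ^ 2 ≤
      lam ^ 2 * (8 * b ^ 2 * (∑ x : T d (2 * h + 1),
      ‖G (lift x) - uu z lam (VL h (sh y ω)) x‖ ^ 2 + ∑' y, ‖fp (h - m) G y‖ ^ 2)) :=
    h1.trans (mul_le_mul_of_nonneg_left h2 (by positivity))
  rw [div_mul_eq_mul_div, le_div_iff₀ (by positivity), mul_comm]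
  refine h3.trans (le_of_eq ?_)
  ring

/-- one starting point -/
theorem one_lim (lam : ℝ) (z : ℂ) (hz : 0 < z.im) (b : ℝ) (ω : Zd d → ℝ)
    (hω : ∀ x, |ω x| ≤ b) (θ : Fin d → ℝ) (y : Zd d) :
    Tendsto (fun h : ℕ => e (pm (2 * h + 1) θ) (-pr (2 * h + 1) y) * ((z.im : ℂ) *
      ∑ x : T d (2 * h + 1), e (pm (2 * h + 1) θ) x *
        ((‖gg z lam (VL h ω) x (pr (2 * h + 1) y)‖ ^ 2 : ℝ) : ℂ))) atTop
      (𝓝 (Ph lam z θ (sh y ω))) := by
  have h1 := det_lim lam (sh y ω) z hz (Gc lam z (sh y ω)) (Gc_isG lam z hz _) θ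
  have h2 : Tendsto (fun h : ℕ => ∑ x : T d (2 * h + 1), e (pm (2 * h + 1) θ) x *
      ((‖uu z lam (fun t => VL h ω (t + pr (2 * h + 1) y)) x‖ ^ 2 : ℝ) : ℂ) -
      ∑ x : T d (2 * h + 1), e (pm (2 * h + 1) θ) x *
      ((‖uu z lam (VL h (sh y ω)) x‖ ^ 2 : ℝ) : ℂ)) atTop (𝓝 0) := by
    have h3 : Tendsto (fun h : ℕ => Real.sqrt ((∑ x : T d (2 * h + 1),
        ‖uu z lam (fun t => VL h ω (t + pr (2 * h + 1) y)) x - uu z lam (VL h (sh y ω)) x‖ ^ 2) *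
        (4 / z.im ^ 2))) atTop (𝓝 0) := by
      have h4 := (Real.continuous_sqrt.tendsto _).comp
        ((shift_lim lam z hz b ω hω y).mul_const (4 / z.im ^ 2))
      rw [zero_mul, Real.sqrt_zero] at h4
      exact h4
    rw [tendsto_zero_iff_norm_tendsto_zero]
    refine squeeze_zero (fun _ => norm_nonneg _) (fun h => ?_) h3
    apply Real.le_sqrt_of_sq_le
    refine (sq_diff _ _ _ (fun x => (e_norm _ x).le)).trans ?_
    refine mul_le_mul_of_nonneg_left ?_ (Finset.sum_nonneg fun _ _ => by positivity)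
    have h5 := uu_norm z hz lam (VL h (sh y ω))
    have h6 := uu_norm z hz lam (fun t => VL h ω (t + pr (2 * h + 1) y))
    have h7 : 4 / z.im ^ 2 = 2 * (1 / z.im ^ 2) + 2 * (1 / z.im ^ 2) := by ring
    rw [h7]
    linarith
  have h3 := (h2.add h1).const_mul (z.im : ℂ)
  rw [zero_add] at h3
  refine h3.congr fun h => ?_
  have key : ∑ x : T d (2 * h + 1), e (pm (2 * h + 1) θ) x *
      ((‖uu z lam (fun t => VL h ω (t + pr (2 * h + 1) y)) x‖ ^ 2 : ℝ) : ℂ) =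
      e (pm (2 * h + 1) θ) (-pr (2 * h + 1) y) * ∑ x : T d (2 * h + 1),
        e (pm (2 * h + 1) θ) x *
          ((‖gg z lam (VL h ω) x (pr (2 * h + 1) y)‖ ^ 2 : ℝ) : ℂ) := by
    rw [Finset.mul_sum]
    symm
    refine (Equiv.sum_comp (Equiv.addRight (pr (2 * h + 1) y))
      (fun x : T d (2 * h + 1) => e (pm (2 * h + 1) θ) (-pr (2 * h + 1) y) *
        (e (pm (2 * h + 1) θ) x *
          ((‖gg z lam (VL h ω) x (pr (2 * h + 1) y)‖ ^ 2 : ℝ) : ℂ)))).symm.trans ?_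
    refine Finset.sum_congr rfl fun x _ => ?_
    rw [Equiv.coe_addRight, e_add, uu_gg, gg_shift hz, zero_add]
    have e1 : e (pm (2 * h + 1) θ) (-pr (2 * h + 1) y) * (e (pm (2 * h + 1) θ) x *
        e (pm (2 * h + 1) θ) (pr (2 * h + 1) y) *
        ((‖gg z lam (VL h ω) (x + pr (2 * h + 1) y) (pr (2 * h + 1) y)‖ ^ 2 : ℝ) : ℂ)) =
        e (pm (2 * h + 1) θ) (-pr (2 * h + 1) y) * e (pm (2 * h + 1) θ) (pr (2 * h + 1) y) *
        (e (pm (2 * h + 1) θ) x *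
        ((‖gg z lam (VL h ω) (x + pr (2 * h + 1) y) (pr (2 * h + 1) y)‖ ^ 2 : ℝ) : ℂ)) := by ring
    rw [e1, ← e_add, neg_add_cancel, e_zero, one_mul]
  rw [sub_add_cancel, key]
  ring

/-- the torus average converges to the lattice average -/
theorem FB_lim (lam : ℝ) (z : ℂ) (hz : 0 < z.im) (b : ℝ) (ω : Zd d → ℝ)
    (hω : ∀ x, |ω x| ≤ b) (θ : Fin d → ℝ) (B : Finset (Zd d)) :
    Tendsto (fun h : ℕ => FB z lam (e (pm (2 * h + 1) θ)) (fun t => e (pm (2 * h + 1) θ) (-t))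
      (B.image (pr (2 * h + 1))) (VL h ω)) atTop (𝓝 (FZ lam z θ B ω)) := by
  classical
  have h0 : Tendsto (fun h : ℕ => ∑ y ∈ B, e (pm (2 * h + 1) θ) (-pr (2 * h + 1) y) *
      ((z.im : ℂ) * ∑ x : T d (2 * h + 1), e (pm (2 * h + 1) θ) x *
        ((‖gg z lam (VL h ω) x (pr (2 * h + 1) y)‖ ^ 2 : ℝ) : ℂ))) atTop
      (𝓝 (∑ y ∈ B, Ph lam z θ (sh y ω))) :=
    tendsto_finsetSum B fun y _ => one_lim lam z hz b ω hω θ y
  have h1 := h0.const_mul ((B.card : ℂ)⁻¹)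
  refine h1.congr' ?_
  have h3 : ∀ᶠ h : ℕ in atTop, ∀ y ∈ B, ∀ i, |y i| ≤ h := by
    rw [Filter.eventually_all_finset]
    intro y _
    exact in_box y
  filter_upwards [h3] with h hh
  have hinj : Set.InjOn (pr (2 * h + 1)) (B : Set (Zd d)) := by
    intro a ha c hc hac
    rw [← lift_pr a (hh a ha), ← lift_pr c (hh c hc), hac]
  unfold FB
  rw [Finset.card_image_of_injOn hinj, Finset.sum_image hinj]

end Pool.Agent.Zk11.QQ
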